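import Mathlib

/-!
# Discrete varieties, Barycentric refinement and the functional eta: definitions

All graphs are finite and simple. Induced subgraphs of a graph `G` are represented by their
(finite) vertex sets `S`.
-/

namespace Pool.Agent.V11141.Eta

open Classical in
/-- `v_k`: the number of complete subgraphs with `k + 1` vertices of the subgraph of `G`
induced on `S`. -/
noncomputable def vk {V : Type} (G : SimpleGraph V) (S : Finset V) (k : ℕ) : ℕ :=
  ((S.powersetCard (k + 1)).filter fun s : Finset V => G.IsClique (s : Set V)).card

/-- The Euler characteristic `v_0 - v_1 + v_2 - ...` of the subgraph of `G` induced on `S`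
(`v_k = 0` for `k ≥ |S|`). -/
noncomputable def chi {V : Type} (G : SimpleGraph V) (S : Finset V) : ℤ :=
  ∑ k ∈ Finset.range S.card, (-1 : ℤ) ^ k * (vk G S k : ℤ)

open Classical in
/-- The vertex set of the unit sphere of `x` in the subgraph of `G` induced on `S`: the
neighbours of `x` in `S`. -/
noncomputable def sph {V : Type} (G : SimpleGraph V) (S : Finset V) (x : V) : Finset V :=
  S.filter fun y => G.Adj x y

open Classical in
/-- `S` without the vertex `x`. -/
noncomputable def del {V : Type} (S : Finset V) (x : V) : Finset V :=
  S.filter fun y => y ≠ x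

/-- The subgraph of `G` induced on `S` is collapsible: it is a single vertex, or it has a vertex
`x` such that deleting `x` leaves a collapsible graph and the unit sphere of `x` is
collapsible. -/
inductive Collapsible {V : Type} (G : SimpleGraph V) : Finset V → Prop
  | point (x : V) : Collapsible G {x}
  | step (S : Finset V) (x : V) (hx : x ∈ S) (h1 : Collapsible G (del S x))
      (h2 : Collapsible G (sph G S x)) : Collapsible G S

/-- `IsSphere G n S`: the subgraph of `G` induced on `S` is an `(n-1)`-sphere. The empty graph
is the `(-1)`-sphere; for `d ≥ 0` a `d`-sphere is a graph all of whose unit spheres are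
`(d-1)`-spheres and which becomes collapsible after deleting some vertex. -/
def IsSphere {V : Type} (G : SimpleGraph V) : ℕ → Finset V → Prop
  | 0, S => S = ∅
  | (n + 1), S => (∀ x ∈ S, IsSphere G n (sph G S x)) ∧ ∃ x ∈ S, Collapsible G (del S x)

/-- `IsDGraph G n S`: the subgraph of `G` induced on `S` is an `(n-1)`-graph. The empty graph
is the `(-1)`-graph; for `d ≥ 0` a `d`-graph is a graph all of whose unit spheres are
`(d-1)`-spheres. -/
def IsDGraph {V : Type} (G : SimpleGraph V) : ℕ → Finset V → Prop
  | 0, S => S = ∅
  | (n + 1), S => ∀ x ∈ S, IsSphere G n (sph G S x)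

/-- `IsVariety G n S`: the subgraph of `G` induced on `S` is an `(n-1)`-variety. The empty graph
is the `(-1)`-variety; for `d ≥ 0` a graph is a `d`-variety if there is a set `T` of vertices
(the singularities), no two of them adjacent, such that the unit sphere of `x` is a
`(d-1)`-graph for every `x` not in `T` and a `(d-1)`-variety for every `x` in `T`. -/
def IsVariety {V : Type} (G : SimpleGraph V) : ℕ → Finset V → Prop
  | 0, S => S = ∅
  | (n + 1), S => ∃ T ⊆ S, (∀ x ∈ T, ∀ y ∈ T, ¬ G.Adj x y) ∧
      (∀ x ∈ S, x ∉ T → IsDGraph G n (sph G S x)) ∧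
      (∀ x ∈ T, IsVariety G n (sph G S x))

/-- Vertices of the Barycentric refinement of `G`: the vertex sets of the (nonempty) complete
subgraphs of `G`. -/
def BV {V : Type} (G : SimpleGraph V) : Type :=
  {s : Finset V // s.Nonempty ∧ G.IsClique (s : Set V)}

noncomputable instance {V : Type} [Fintype V] (G : SimpleGraph V) : Fintype (BV G) :=
  @Fintype.ofFinite _ (inferInstanceAs (Finite {s : Finset V // s.Nonempty ∧
    G.IsClique (s : Set V)}))

/-- The Barycentric refinement `G_1`: two complete subgraphs are adjacent when one strictly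
contains the other. -/
def bary {V : Type} (G : SimpleGraph V) : SimpleGraph (BV G) where
  Adj s t := s.1 ⊂ t.1 ∨ t.1 ⊂ s.1
  symm := ⟨fun _ _ h => h.symm⟩
  loopless := ⟨fun s h => h.elim (fun h => (ssubset_irrefl s.1) h) fun h => (ssubset_irrefl s.1) h⟩

/-- `η(G) = ∑_{k ≥ 1} (-1)^(k+1) (k+1) v_k(G_1)` (with `v_k(G_1) = 0` once `k` is at least the
number of vertices of `G_1`). -/
noncomputable def eta {V : Type} [Fintype V] (G : SimpleGraph V) : ℤ :=
  ∑ k ∈ Finset.Ico 1 (Fintype.card (BV G)),
    (-1 : ℤ) ^ (k + 1) * ((k : ℤ) + 1) * (vk (bary G) Finset.univ k : ℤ)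

/-- The Euler characteristic of the unit sphere of `x` in the Barycentric refinement. -/
noncomputable def curv {V : Type} [Fintype V] (G : SimpleGraph V) (x : BV G) : ℤ :=
  chi (bary G) (sph (bary G) Finset.univ x)

end Pool.Agent.V11141.Eta
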