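import Mathlib
import Pool.Agent.V11141.EtaDef

namespace Pool.Agent.V11141.Eta

open Finset

section general

variable {V : Type} (G : SimpleGraph V)

open Classical in
/-- signed count of all cliques, the empty one included -/
noncomputable def ee (S : Finset V) : ℤ :=
  ∑ s ∈ S.powerset, if G.IsClique (s : Set V) then (-1 : ℤ) ^ s.card else 0

theorem ee_empty : ee G ∅ = 1 := by
  classical
  unfold ee
  simp

theorem mem_sph {S : Finset V} {x y : V} : y ∈ sph G S x ↔ y ∈ S ∧ G.Adj x y := by
  classical
  unfold sph
  rw [Finset.mem_filter]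

theorem mem_del {S : Finset V} {x y : V} : y ∈ del S x ↔ y ∈ S ∧ y ≠ x := by
  classical
  unfold del
  rw [Finset.mem_filter]

theorem ee_del {S : Finset V} {x : V} (hx : x ∈ S) :
    ee G S = ee G (del S x) - ee G (sph G S x) := by
  classical
  have hS : S = insert x (del S x) := by
    ext y
    rw [Finset.mem_insert, mem_del]
    constructor
    · intro h
      by_cases h1 : y = x
      · exact Or.inl h1
      · exact Or.inr ⟨h, h1⟩
    · rintro (rfl | h)
      · exact hx
      · exact h.1
  have hnot : x ∉ del S x := by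
    rw [mem_del]; tauto
  have h1 : ee G S = ∑ s ∈ (insert x (del S x)).powerset,
      if G.IsClique (s : Set V) then (-1 : ℤ) ^ s.card else 0 := by
    unfold ee
    rw [← hS]
  rw [h1, Finset.sum_powerset_insert hnot]
  unfold ee
  rw [sub_eq_add_neg]
  congr 1
  have h2 : ∀ s ∈ (del S x).powerset,
      (if G.IsClique ((insert x s : Finset V) : Set V) then (-1 : ℤ) ^ (insert x s).card else 0) =
      if (∀ y ∈ s, G.Adj x y) then
        -(if G.IsClique (s : Set V) then (-1 : ℤ) ^ s.card else 0) else 0 := by
    intro s hs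
    rw [Finset.mem_powerset] at hs
    have hxs : x ∉ s := fun h => hnot (hs h)
    rw [Finset.card_insert_of_notMem hxs]
    have hcq : G.IsClique ((insert x s : Finset V) : Set V) ↔
        G.IsClique (s : Set V) ∧ ∀ b ∈ (s : Set V), x ≠ b → G.Adj x b := by
      rw [Finset.coe_insert, SimpleGraph.isClique_insert]
    by_cases ha : ∀ y ∈ s, G.Adj x y
    · rw [if_pos ha]
      by_cases hb : G.IsClique (s : Set V)
      · rw [if_pos hb, if_pos (hcq.mpr ⟨hb, fun b hb _ => ha b (by simpa using hb)⟩)]
        ring
      · rw [if_neg hb, if_neg (fun h => hb (hcq.mp h).1)]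
        ring
    · rw [if_neg ha, if_neg]
      intro h
      apply ha
      intro y hy
      exact (hcq.mp h).2 y (by simpa using hy) (by rintro rfl; exact hxs hy)
  rw [Finset.sum_congr rfl h2, ← Finset.sum_filter, ← Finset.sum_neg_distrib]
  refine Finset.sum_congr ?_ fun s _ => rfl
  ext s
  rw [Finset.mem_filter, Finset.mem_powerset, Finset.mem_powerset]
  constructor
  · rintro ⟨h1, h2⟩ y hy
    rw [mem_sph]
    exact ⟨((mem_del).mp (h1 hy)).1, h2 y hy⟩
  · intro h
    refine ⟨fun y hy => ?_, fun y hy => ((mem_sph G).mp (h hy)).2⟩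
    have := (mem_sph G).mp (h hy)
    rw [mem_del]
    exact ⟨this.1, this.2.ne.symm⟩

theorem ee_collapsible {S : Finset V} (h : Collapsible G S) : ee G S = 0 := by
  classical
  induction h with
  | point x =>
    have h1 := ee_del G (S := {x}) (x := x) (by simp)
    have h2 : del ({x} : Finset V) x = ∅ := by
      ext y; rw [mem_del]; simp
    have h3 : sph G ({x} : Finset V) x = ∅ := by
      ext y; rw [mem_sph]; simp only [Finset.mem_singleton, Finset.notMem_empty, iff_false]
      rintro ⟨rfl, h⟩
      exact h.ne rfl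
    rw [h1, h2, h3, sub_self]
  | step S x hx _ _ ih1 ih2 => rw [ee_del G hx, ih1, ih2, sub_self]

theorem ee_sphere : ∀ (n : ℕ) (S : Finset V), IsSphere G n S → ee G S = (-1) ^ n := by
  intro n
  induction n with
  | zero =>
    intro S hS
    have hS' : S = ∅ := hS
    rw [hS', ee_empty, pow_zero]
  | succ n ih =>
    intro S hS
    obtain ⟨h1, x, hx, hc⟩ := hS
    rw [ee_del G hx, ee_collapsible G hc, ih _ (h1 x hx), pow_succ]
    ring

/-- Euler characteristic and signed clique count -/
theorem chi_eq (S : Finset V) : chi G S = 1 - ee G S := by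
  classical
  unfold chi ee vk
  rw [Finset.sum_powerset, Finset.sum_range_succ']
  have h0 : ∑ t ∈ Finset.powersetCard 0 S,
      (if G.IsClique (t : Set V) then (-1 : ℤ) ^ t.card else 0) = 1 := by
    rw [Finset.powersetCard_zero, Finset.sum_singleton]
    simp
  rw [h0]
  have h1 : ∀ k, ∑ t ∈ Finset.powersetCard (k + 1) S,
      (if G.IsClique (t : Set V) then (-1 : ℤ) ^ t.card else 0) =
      -((-1 : ℤ) ^ k * (((S.powersetCard (k + 1)).filter fun s : Finset V =>
        G.IsClique (s : Set V)).card : ℤ)) := by
    intro k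
    rw [← Finset.sum_filter, Finset.sum_congr rfl (g := fun _ => (-1 : ℤ) ^ (k + 1))]
    · rw [Finset.sum_const, nsmul_eq_mul]
      ring
    · intro t ht
      rw [Finset.mem_filter, Finset.mem_powersetCard] at ht
      rw [ht.1.2]
  simp_rw [h1]
  rw [Finset.sum_neg_distrib]
  ring

/-- link of a set in `T` -/
noncomputable def lk (T x : Finset V) : Finset V := by
  classical exact T.filter fun v => ∀ u ∈ x, G.Adj u v

theorem mem_lk {T x : Finset V} {v : V} : v ∈ lk G T x ↔ v ∈ T ∧ ∀ u ∈ x, G.Adj u v := by
  classical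
  unfold lk
  rw [Finset.mem_filter]

theorem lemA : ∀ (n : ℕ) (T x : Finset V), IsDGraph G (n + 1) T → x ⊆ T → x.Nonempty →
    G.IsClique (x : Set V) → x.card ≤ n + 1 ∧ IsSphere G (n + 1 - x.card) (lk G T x) := by
  classical
  intro n
  induction n with
  | zero =>
    intro T x hT hxT hne hcl
    obtain ⟨u, hu⟩ := hne
    have h1 : sph G T u = ∅ := hT u (hxT hu)
    have h2 : x = {u} := by
      ext y
      rw [Finset.mem_singleton]
      constructor
      · intro hy
        by_contra hne'
        have : y ∈ sph G T u := (mem_sph G).mpr ⟨hxT hy, hcl (by simpa using hu)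
          (by simpa using hy) (Ne.symm hne')⟩
        rw [h1] at this
        exact absurd this (Finset.notMem_empty _)
      · rintro rfl; exact hu
    subst h2
    refine ⟨by simp, ?_⟩
    have h3 : lk G T {u} = sph G T u := by
      ext y
      rw [mem_lk, mem_sph]
      simp
    rw [h3, Finset.card_singleton]
    exact h1
  | succ n ih =>
    intro T x hT hxT hne hcl
    obtain ⟨u, hu⟩ := hne
    have h1 : IsSphere G (n + 1) (sph G T u) := hT u (hxT hu)
    by_cases hx1 : x = {u}
    · subst hx1
      have h3 : lk G T {u} = sph G T u := by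
        ext y
        rw [mem_lk, mem_sph]
        simp
      rw [h3, Finset.card_singleton]
      exact ⟨by omega, h1⟩
    · have hsub : x.erase u ⊆ sph G T u := by
        intro y hy
        rw [Finset.mem_erase] at hy
        exact (mem_sph G).mpr ⟨hxT hy.2, hcl (by simpa using hu)
          (by simpa using hy.2) (Ne.symm hy.1)⟩
      have hne2 : (x.erase u).Nonempty := by
        rw [Finset.nonempty_iff_ne_empty]
        intro h
        apply hx1
        rw [← Finset.insert_erase hu, h]
        rfl
      have hcl2 : G.IsClique ((x.erase u : Finset V) : Set V) :=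
        hcl.subset (by simpa using Finset.erase_subset u x)
      obtain ⟨h2, h3⟩ := ih (sph G T u) (x.erase u) h1.1 hsub hne2 hcl2
      rw [Finset.card_erase_of_mem hu] at h2 h3
      have hc : 0 < x.card := Finset.card_pos.mpr ⟨u, hu⟩
      have h4 : lk G (sph G T u) (x.erase u) = lk G T x := by
        ext y
        rw [mem_lk, mem_lk, mem_sph]
        constructor
        · rintro ⟨⟨h5, h6⟩, h7⟩
          refine ⟨h5, fun w hw => ?_⟩
          by_cases hwu : w = u
          · rw [hwu]; exact h6
          · exact h7 w (Finset.mem_erase.mpr ⟨hwu, hw⟩)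
        · rintro ⟨h5, h6⟩
          exact ⟨⟨h5, h6 u hu⟩, fun w hw => h6 w (Finset.mem_of_mem_erase hw)⟩
      rw [h4] at h3
      refine ⟨by omega, ?_⟩
      have h5 : n + 1 + 1 - x.card = n + 1 - (x.card - 1) := by omega
      rw [h5]
      exact h3

theorem lemB (n : ℕ) (T x : Finset V) (hT : IsVariety G (n + 1) T) (hxT : x ⊆ T)
    (hcard : 2 ≤ x.card) (hcl : G.IsClique (x : Set V)) :
    x.card ≤ n + 1 ∧ IsSphere G (n + 1 - x.card) (lk G T x) := by
  classical
  obtain ⟨Sg, hSg, hiso, h1, h2⟩ := hT
  obtain ⟨a, ha, b, hb, hab⟩ := Finset.one_lt_card.mp hcard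
  obtain ⟨u, hu, huSg⟩ : ∃ u ∈ x, u ∉ Sg := by
    by_contra hcon
    push Not at hcon
    exact hiso a (hcon a ha) b (hcon b hb) (hcl (by simpa using ha) (by simpa using hb) hab)
  have h3 := h1 u (hxT hu) huSg
  have hsub : x.erase u ⊆ sph G T u := by
    intro y hy
    rw [Finset.mem_erase] at hy
    exact (mem_sph G).mpr ⟨hxT hy.2, hcl (by simpa using hu)
      (by simpa using hy.2) (Ne.symm hy.1)⟩
  have hne2 : (x.erase u).Nonempty := by
    rw [← Finset.card_pos, Finset.card_erase_of_mem hu]
    omega
  have hcl2 : G.IsClique ((x.erase u : Finset V) : Set V) :=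
    hcl.subset (by simpa using Finset.erase_subset u x)
  have h4 : lk G (sph G T u) (x.erase u) = lk G T x := by
    ext y
    rw [mem_lk, mem_lk, mem_sph]
    constructor
    · rintro ⟨⟨h5, h6⟩, h7⟩
      refine ⟨h5, fun w hw => ?_⟩
      by_cases hwu : w = u
      · rw [hwu]; exact h6
      · exact h7 w (Finset.mem_erase.mpr ⟨hwu, hw⟩)
    · rintro ⟨h5, h6⟩
      exact ⟨⟨h5, h6 u hu⟩, fun w hw => h6 w (Finset.mem_of_mem_erase hw)⟩
  rcases n with _ | n
  · have h5 : sph G T u = ∅ := h3
    rw [h5] at hsub
    obtain ⟨y, hy⟩ := hne2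
    exact absurd (hsub hy) (Finset.notMem_empty _)
  · obtain ⟨h5, h6⟩ := lemA G n (sph G T u) (x.erase u) h3 hsub hne2 hcl2
    rw [Finset.card_erase_of_mem hu] at h5 h6
    rw [h4] at h6
    refine ⟨by omega, ?_⟩
    have h7 : n + 1 + 1 - x.card = n + 1 - (x.card - 1) := by omega
    rw [h7]
    exact h6

/-- in a variety all unit spheres are graphs of the right dimension -/
theorem sph_dgraph (n : ℕ) (T : Finset V) (hT : IsVariety G (n + 1) T) (x : V) (hx : x ∈ T) :
    IsDGraph G n (sph G T x) := by
  classical
  have hB := lemB G n T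
  rcases n with _ | n
  · obtain ⟨Sg, hSg, hiso, h1, h2⟩ := hT
    by_cases hxSg : x ∈ Sg
    · exact h2 x hxSg
    · exact h1 x hx hxSg
  · intro y hy
    have hy' := (mem_sph G).mp hy
    have h1 := hB {x, y} hT (by
      intro z hz
      rw [Finset.mem_insert, Finset.mem_singleton] at hz
      rcases hz with rfl | rfl
      · exact hx
      · exact hy'.1) (by rw [Finset.card_pair hy'.2.ne]) (by
      rw [Finset.coe_insert, Finset.coe_singleton, SimpleGraph.isClique_insert]
      refine ⟨by simp, fun b hb _ => ?_⟩
      rw [Set.mem_singleton_iff] at hb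
      subst hb
      exact hy'.2)
    rw [Finset.card_pair hy'.2.ne] at h1
    have h2 : lk G T {x, y} = sph G (sph G T x) y := by
      ext z
      rw [mem_lk, mem_sph, mem_sph]
      simp only [Finset.mem_insert, Finset.mem_singleton, forall_eq_or_imp, forall_eq]
      tauto
    rw [h2] at h1
    exact h1.2

open Classical in
/-- signed count of cliques of `T` containing `x` -/
noncomputable def EE (T x : Finset V) : ℤ :=
  ∑ z ∈ T.powerset, if x ⊆ z ∧ G.IsClique (z : Set V) then (-1 : ℤ) ^ (z.card - x.card) else 0

theorem EE_eq (T x : Finset V) (hx : x ⊆ T) (hcl : G.IsClique (x : Set V)) :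
    EE G T x = ee G (lk G T x) := by
  classical
  unfold EE ee
  rw [← Finset.sum_filter, ← Finset.sum_filter]
  refine Finset.sum_nbij' (fun z => z \ x) (fun s => x ∪ s) ?_ ?_ ?_ ?_ ?_
  · intro z hz
    rw [Finset.mem_filter, Finset.mem_powerset] at hz ⊢
    obtain ⟨h1, h2, h3⟩ := hz
    refine ⟨fun v hv => ?_, ?_⟩
    · rw [Finset.mem_sdiff] at hv
      rw [mem_lk]
      refine ⟨h1 hv.1, fun u hu => ?_⟩
      exact h3 (by simpa using h2 hu) (by simpa using hv.1) (by rintro rfl; exact hv.2 hu)
    · exact h3.subset (by simp)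
  · intro s hs
    rw [Finset.mem_filter, Finset.mem_powerset] at hs ⊢
    obtain ⟨h1, h2⟩ := hs
    refine ⟨?_, Finset.subset_union_left, ?_⟩
    · intro v hv
      rw [Finset.mem_union] at hv
      rcases hv with hv | hv
      · exact hx hv
      · exact ((mem_lk G).mp (h1 hv)).1
    · intro a ha b hb hab
      simp only [Finset.coe_union, Set.mem_union, Finset.mem_coe] at ha hb
      rcases ha with ha | ha <;> rcases hb with hb | hb
      · exact hcl (by simpa using ha) (by simpa using hb) hab
      · exact ((mem_lk G).mp (h1 hb)).2 a ha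
      · exact (((mem_lk G).mp (h1 ha)).2 b hb).symm
      · exact h2 (by simpa using ha) (by simpa using hb) hab
  · intro z hz
    rw [Finset.mem_filter] at hz
    exact Finset.union_sdiff_of_subset hz.2.1
  · intro s hs
    rw [Finset.mem_filter, Finset.mem_powerset] at hs
    have hdis : Disjoint x s := by
      rw [Finset.disjoint_left]
      intro a ha hb
      exact (((mem_lk G).mp (hs.1 hb)).2 a ha).ne rfl
    show (x ∪ s) \ x = s
    rw [Finset.union_sdiff_left]
    exact Finset.sdiff_eq_self_of_disjoint hdis.symm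
  · intro z hz
    rw [Finset.mem_filter] at hz
    rw [Finset.card_sdiff_of_subset hz.2.1]

/-- the basic identity -/
theorem sum_EE (T x : Finset V) (hx : x ⊆ T) (hcl : G.IsClique (x : Set V)) :
    ∑ y ∈ T.powerset, (by classical exact if x ⊆ y ∧ G.IsClique (y : Set V) then EE G T y else 0) =
      (1 : ℤ) := by
  classical
  unfold EE
  have h1 : ∀ y ∈ T.powerset, (if x ⊆ y ∧ G.IsClique (y : Set V) then
      (∑ z ∈ T.powerset, if y ⊆ z ∧ G.IsClique (z : Set V) then (-1 : ℤ) ^ (z.card - y.card)
        else 0) else 0) = ∑ z ∈ T.powerset, if x ⊆ y ∧ y ⊆ z ∧ G.IsClique (z : Set V) then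
          (-1 : ℤ) ^ (z.card - y.card) else 0 := by
    intro y _
    by_cases h : x ⊆ y ∧ G.IsClique (y : Set V)
    · rw [if_pos h]
      refine Finset.sum_congr rfl fun z _ => ?_
      by_cases h2 : y ⊆ z ∧ G.IsClique (z : Set V)
      · rw [if_pos h2, if_pos ⟨h.1, h2⟩]
      · rw [if_neg h2, if_neg fun h3 => h2 h3.2]
    · rw [if_neg h]
      symm
      refine Finset.sum_eq_zero fun z _ => ?_
      rw [if_neg]
      rintro ⟨h2, h3, h4⟩
      exact h ⟨h2, h4.subset (by simpa using h3)⟩
  have h1' : ∑ y ∈ T.powerset, (if x ⊆ y ∧ G.IsClique (y : Set V) then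
      (∑ z ∈ T.powerset, if y ⊆ z ∧ G.IsClique (z : Set V) then (-1 : ℤ) ^ (z.card - y.card)
        else 0) else 0) = ∑ y ∈ T.powerset, ∑ z ∈ T.powerset,
        if x ⊆ y ∧ y ⊆ z ∧ G.IsClique (z : Set V) then
          (-1 : ℤ) ^ (z.card - y.card) else 0 := Finset.sum_congr rfl h1
  rw [h1', Finset.sum_comm]
  have h2 : ∀ z ∈ T.powerset, ∑ y ∈ T.powerset,
      (if x ⊆ y ∧ y ⊆ z ∧ G.IsClique (z : Set V) then (-1 : ℤ) ^ (z.card - y.card) else 0) =
      if z = x then 1 else 0 := by
    intro z hz
    rw [Finset.mem_powerset] at hz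
    by_cases hzc : G.IsClique (z : Set V)
    · by_cases hxz : x ⊆ z
      · have h3 : ∑ y ∈ T.powerset,
            (if x ⊆ y ∧ y ⊆ z ∧ G.IsClique (z : Set V) then (-1 : ℤ) ^ (z.card - y.card)
              else 0) = ∑ w ∈ (z \ x).powerset, (-1 : ℤ) ^ w.card := by
          rw [← Finset.sum_filter]
          refine Finset.sum_nbij' (fun y => z \ y) (fun w => z \ w) ?_ ?_ ?_ ?_ ?_
          · intro y hy
            rw [Finset.mem_filter] at hy
            rw [Finset.mem_powerset]
            exact Finset.sdiff_subset_sdiff (Finset.Subset.refl _) hy.2.1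
          · intro w hw
            rw [Finset.mem_powerset] at hw
            rw [Finset.mem_filter, Finset.mem_powerset]
            refine ⟨Finset.sdiff_subset.trans hz, ?_, Finset.sdiff_subset, hzc⟩
            intro v hv
            rw [Finset.mem_sdiff]
            refine ⟨hxz hv, fun hvw => ?_⟩
            exact (Finset.mem_sdiff.mp (hw hvw)).2 hv
          · intro y hy
            rw [Finset.mem_filter] at hy
            exact Finset.sdiff_sdiff_eq_self hy.2.2.1
          · intro w hw
            rw [Finset.mem_powerset] at hw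
            exact Finset.sdiff_sdiff_eq_self (hw.trans Finset.sdiff_subset)
          · intro y hy
            rw [Finset.mem_filter] at hy
            rw [Finset.card_sdiff_of_subset hy.2.2.1]
        rw [h3, Finset.sum_powerset_neg_one_pow_card]
        by_cases hzx : z = x
        · rw [if_pos hzx, if_pos]
          rw [hzx, Finset.sdiff_self]
        · rw [if_neg hzx, if_neg]
          intro h4
          rw [Finset.sdiff_eq_empty_iff_subset] at h4
          exact hzx (Finset.Subset.antisymm h4 hxz)
      · rw [if_neg (by rintro rfl; exact hxz (Finset.Subset.refl _))]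
        refine Finset.sum_eq_zero fun y _ => ?_
        rw [if_neg]
        rintro ⟨h4, h5, -⟩
        exact hxz (h4.trans h5)
    · rw [if_neg (by rintro rfl; exact hzc hcl)]
      refine Finset.sum_eq_zero fun y _ => ?_
      rw [if_neg]
      rintro ⟨-, -, h5⟩
      exact hzc h5
  rw [Finset.sum_congr rfl h2, Finset.sum_ite_eq' T.powerset x, if_pos (Finset.mem_powerset.mpr hx)]

theorem sph_sub_del (S : Finset V) (x : V) : sph G S x ⊆ del S x := by
  intro y hy
  rw [mem_sph] at hy
  rw [mem_del]
  exact ⟨hy.1, hy.2.ne.symm⟩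

theorem del_card_lt {S : Finset V} {x : V} (hx : x ∈ S) : (del S x).card < S.card := by
  apply Finset.card_lt_card
  refine ⟨fun y hy => (mem_del.mp hy).1, fun h => ?_⟩
  exact (mem_del.mp (h hx)).2 rfl

theorem ee_join (C : Finset V) : ∀ (n : ℕ) (A : Finset V), A.card = n →
    (∀ a ∈ A, ∀ c ∈ C, G.Adj a c) → ∀ U : Finset V, (∀ v, v ∈ U ↔ v ∈ A ∨ v ∈ C) →
    ee G U = ee G A * ee G C := by
  classical
  intro n
  induction n using Nat.strong_induction_on with
  | _ n ih =>
  intro A hA hadj U hU
  rcases A.eq_empty_or_nonempty with rfl | ⟨a, ha⟩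
  · have : U = C := by
      ext v; rw [hU]; simp
    rw [this, ee_empty, one_mul]
  · have haC : a ∉ C := fun h => (hadj a ha a h).ne rfl
    have haU : a ∈ U := (hU a).mpr (Or.inl ha)
    have h1 : (del A a).card < n := by rw [← hA]; exact del_card_lt ha
    have h2 : (sph G A a).card < n :=
      lt_of_le_of_lt (Finset.card_le_card (sph_sub_del G A a)) h1
    have e1 := ih _ h1 (del A a) rfl (fun b hb c hc => hadj b (mem_del.mp hb).1 c hc) (del U a)
      (by
        intro v
        rw [mem_del, mem_del, hU]
        constructor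
        · rintro ⟨h3 | h3, h4⟩
          · exact Or.inl ⟨h3, h4⟩
          · exact Or.inr h3
        · rintro (⟨h3, h4⟩ | h3)
          · exact ⟨Or.inl h3, h4⟩
          · exact ⟨Or.inr h3, by rintro rfl; exact haC h3⟩)
    have e2 := ih _ h2 (sph G A a) rfl (fun b hb c hc => hadj b ((mem_sph G).mp hb).1 c hc)
      (sph G U a) (by
        intro v
        rw [mem_sph, mem_sph, hU]
        constructor
        · rintro ⟨h3 | h3, h4⟩
          · exact Or.inl ⟨h3, h4⟩
          · exact Or.inr h3
        · rintro (⟨h3, h4⟩ | h3)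
          · exact ⟨Or.inl h3, h4⟩
          · exact ⟨Or.inr h3, hadj a ha v h3⟩)
    rw [ee_del G haU, e1, e2, ee_del G ha]
    ring

open Classical in
/-- signed clique sum of cliques containing a vertex -/
theorem ee_contain [Fintype V] (x : V) :
    ∑ t ∈ (Finset.univ : Finset V).powerset,
      (if x ∈ t then (if G.IsClique (t : Set V) then (-1 : ℤ) ^ t.card else 0) else 0) =
      - ee G (sph G Finset.univ x) := by
  have h1 := ee_del G (Finset.mem_univ x)
  have h2 : ee G Finset.univ = ∑ t ∈ (Finset.univ : Finset V).powerset,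
      (if x ∈ t then (if G.IsClique (t : Set V) then (-1 : ℤ) ^ t.card else 0) else 0) +
      ee G (del Finset.univ x) := by
    unfold ee
    rw [← Finset.sum_filter_add_sum_filter_not (Finset.univ : Finset V).powerset
      (fun t => x ∈ t)]
    congr 1
    · rw [Finset.sum_filter]
    · refine Finset.sum_congr ?_ fun t _ => rfl
      ext t
      rw [Finset.mem_filter, Finset.mem_powerset, Finset.mem_powerset]
      constructor
      · rintro ⟨-, h⟩ y hy
        rw [mem_del]
        exact ⟨Finset.mem_univ _, by rintro rfl; exact h hy⟩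
      · intro h
        exact ⟨Finset.subset_univ _, fun hx => (mem_del.mp (h hx)).2 rfl⟩
  linarith

open Classical in
/-- Gauss-Bonnet form of the functional -/
theorem gauss_bonnet [Fintype V] :
    ∑ k ∈ Finset.Ico 1 (Fintype.card V),
      (-1 : ℤ) ^ (k + 1) * ((k : ℤ) + 1) * (vk G Finset.univ k : ℤ) =
    ∑ x : V, chi G (sph G Finset.univ x) := by
  have h1 : ∑ t ∈ (Finset.univ : Finset V).powerset,
      (if G.IsClique (t : Set V) then (t.card : ℤ) * (-1 : ℤ) ^ t.card else 0) =
      ∑ x : V, - ee G (sph G Finset.univ x) := by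
    simp_rw [← ee_contain G]
    rw [Finset.sum_comm]
    refine Finset.sum_congr rfl fun t _ => ?_
    rw [← Finset.sum_filter]
    have : (Finset.univ.filter fun x => x ∈ t) = t := by ext; simp
    rw [this, Finset.sum_const, nsmul_eq_mul]
    split_ifs <;> ring
  have h2 : ∑ t ∈ (Finset.univ : Finset V).powerset,
      (if G.IsClique (t : Set V) then (t.card : ℤ) * (-1 : ℤ) ^ t.card else 0) =
      ∑ k ∈ Finset.range (Fintype.card V), (-1 : ℤ) ^ (k + 1) * ((k : ℤ) + 1) *
        (vk G Finset.univ k : ℤ) := by
    rw [Finset.sum_powerset, Finset.sum_range_succ', Finset.card_univ]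
    rw [Finset.powersetCard_zero, Finset.sum_singleton]
    have h0 : (if G.IsClique ((∅ : Finset V) : Set V) then
        (((∅ : Finset V).card : ℕ) : ℤ) * (-1 : ℤ) ^ (∅ : Finset V).card else 0) = 0 := by
      simp
    rw [h0, add_zero]
    refine Finset.sum_congr rfl fun k _ => ?_
    unfold vk
    rw [← Finset.sum_filter, Finset.sum_congr rfl
      (g := fun _ => ((k : ℤ) + 1) * (-1 : ℤ) ^ (k + 1))]
    · rw [Finset.sum_const, nsmul_eq_mul]
      ring
    · intro t ht
      rw [Finset.mem_filter, Finset.mem_powersetCard] at ht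
      rw [ht.1.2]
      push_cast
      ring
  have h3 : (vk G Finset.univ 0 : ℤ) = Fintype.card V := by
    unfold vk
    have : ((Finset.univ : Finset V).powersetCard (0 + 1)).filter
        (fun s : Finset V => G.IsClique (s : Set V)) = Finset.univ.powersetCard 1 := by
      rw [Finset.filter_eq_self]
      intro s hs
      rw [Finset.mem_powersetCard] at hs
      obtain ⟨a, rfl⟩ := Finset.card_eq_one.mp hs.2
      simp
    rw [this, Finset.card_powersetCard, Nat.choose_one_right, Finset.card_univ]
  have h4 : ∑ x : V, chi G (sph G Finset.univ x) =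
      (Fintype.card V : ℤ) + ∑ x : V, - ee G (sph G Finset.univ x) := by
    simp_rw [chi_eq, sub_eq_add_neg]
    rw [Finset.sum_add_distrib, Finset.sum_const, Finset.card_univ, nsmul_eq_mul, mul_one]
  rw [h4, ← h1, h2]
  rcases Nat.eq_zero_or_pos (Fintype.card V) with h5 | h5
  · rw [h5]; simp
  · rw [← Finset.sum_range_add_sum_Ico _ (show 1 ≤ Fintype.card V from h5),
      Finset.sum_range_one, h3]
    push_cast
    ring

end general

section bary

variable {V : Type} [Fintype V] (G : SimpleGraph V)

open Classical in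
/-- elements above -/
noncomputable def ab (x : BV G) : Finset (BV G) := Finset.univ.filter fun y => x.1 ⊂ y.1

open Classical in
/-- elements below -/
noncomputable def be (x : BV G) : Finset (BV G) := Finset.univ.filter fun y => y.1 ⊂ x.1

theorem mem_ab {x y : BV G} : y ∈ ab G x ↔ x.1 ⊂ y.1 := by
  classical
  unfold ab; simp

theorem mem_be {x y : BV G} : y ∈ be G x ↔ y.1 ⊂ x.1 := by
  classical
  unfold be; simp

theorem up_formula : ∀ (n : ℕ) (A : Finset (BV G)), A.card = n →
    (∀ y ∈ A, ∀ z : BV G, y.1 ⊂ z.1 → z ∈ A) →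
    ee (bary G) A = 1 - ∑ y ∈ A, ee (bary G) (ab G y) := by
  classical
  intro n
  induction n with
  | zero =>
    intro A hA _
    rw [Finset.card_eq_zero] at hA
    rw [hA, ee_empty, Finset.sum_empty, sub_zero]
  | succ n ih =>
    intro A hA hup
    obtain ⟨y, hy, hmin⟩ := Finset.exists_min_image A (fun z => z.1.card)
      (Finset.card_pos.mp (by omega))
    have h1 : del A y = A.erase y := by
      ext z; rw [mem_del, Finset.mem_erase]; tauto
    have h2 : sph (bary G) A y = ab G y := by
      ext z
      rw [mem_sph, mem_ab]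
      constructor
      · rintro ⟨hz, h | h⟩
        · exact h
        · have := Finset.card_lt_card h
          have := hmin z hz
          omega
      · intro h
        exact ⟨hup y hy z h, Or.inl h⟩
    have h3 := ih (del A y) (by rw [h1, Finset.card_erase_of_mem hy]; omega) (by
      intro w hw z hz
      rw [mem_del] at hw ⊢
      refine ⟨hup w hw.1 z hz, ?_⟩
      rintro rfl
      have := Finset.card_lt_card hz
      have := hmin w hw.1
      omega)
    rw [ee_del (bary G) hy, h2, h3, h1, ← Finset.sum_erase_add A _ hy]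
    ring

theorem down_formula : ∀ (n : ℕ) (A : Finset (BV G)), A.card = n →
    (∀ y ∈ A, ∀ z : BV G, z.1 ⊂ y.1 → z ∈ A) →
    ee (bary G) A = 1 - ∑ y ∈ A, ee (bary G) (be G y) := by
  classical
  intro n
  induction n with
  | zero =>
    intro A hA _
    rw [Finset.card_eq_zero] at hA
    rw [hA, ee_empty, Finset.sum_empty, sub_zero]
  | succ n ih =>
    intro A hA hup
    obtain ⟨y, hy, hmin⟩ := Finset.exists_max_image A (fun z => z.1.card)
      (Finset.card_pos.mp (by omega))
    have h1 : del A y = A.erase y := by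
      ext z; rw [mem_del, Finset.mem_erase]; tauto
    have h2 : sph (bary G) A y = be G y := by
      ext z
      rw [mem_sph, mem_be]
      constructor
      · rintro ⟨hz, h | h⟩
        · have := Finset.card_lt_card h
          have := hmin z hz
          omega
        · exact h
      · intro h
        exact ⟨hup y hy z h, Or.inr h⟩
    have h3 := ih (del A y) (by rw [h1, Finset.card_erase_of_mem hy]; omega) (by
      intro w hw z hz
      rw [mem_del] at hw ⊢
      refine ⟨hup w hw.1 z hz, ?_⟩
      rintro rfl
      have := Finset.card_lt_card hz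
      have := hmin w hw.1
      omega)
    rw [ee_del (bary G) hy, h2, h3, h1, ← Finset.sum_erase_add A _ hy]
    ring

omit [Fintype V] in
/-- transfer of sums -/
theorem sum_BV (p : Finset V → Prop) (f : Finset V → ℤ) (A : Finset (BV G))
    (hA : ∀ y : BV G, y ∈ A ↔ p y.1) (S : Finset (Finset V))
    (hS : ∀ y : Finset V, y ∈ S ↔ p y ∧ y.Nonempty ∧ G.IsClique (y : Set V)) :
    ∑ y ∈ A, f y.1 = ∑ y ∈ S, f y := by
  refine Finset.sum_nbij (fun y => y.1) ?_ ?_ ?_ ?_
  · intro y hy
    rw [hA] at hy
    rw [hS]
    exact ⟨hy, y.2⟩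
  · intro y _ z _ h
    exact Subtype.ext h
  · intro y hy
    rw [Finset.mem_coe, hS] at hy
    exact ⟨⟨y, hy.2⟩, (hA _).mpr hy.1, rfl⟩
  · intro y _
    rfl

theorem ee_ab : ∀ (n : ℕ) (x : BV G), Fintype.card V - x.1.card = n →
    ee (bary G) (ab G x) = EE G Finset.univ x.1 := by
  classical
  intro n
  induction n using Nat.strong_induction_on with
  | _ n ih =>
  intro x hx
  rw [up_formula G _ (ab G x) rfl (by
    intro y hy z hz
    rw [mem_ab] at hy ⊢
    exact hy.trans hz)]
  have h1 : ∑ y ∈ ab G x, ee (bary G) (ab G y) = ∑ y ∈ ab G x, EE G Finset.univ y.1 := by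
    refine Finset.sum_congr rfl fun y hy => ?_
    rw [mem_ab] at hy
    have h2 := Finset.card_lt_card hy
    have h3 := Finset.card_le_univ y.1
    exact ih (Fintype.card V - y.1.card) (by omega) y rfl
  rw [h1]
  have h2 := sum_EE G Finset.univ x.1 (Finset.subset_univ _) x.2.2
  rw [← Finset.sum_filter] at h2
  have h3 : (Finset.univ : Finset V).powerset.filter
      (fun y => x.1 ⊆ y ∧ G.IsClique (y : Set V)) = insert x.1
      ((Finset.univ : Finset V).powerset.filter
        (fun y => x.1 ⊂ y ∧ y.Nonempty ∧ G.IsClique (y : Set V))) := by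
    ext y
    simp only [Finset.mem_insert, Finset.mem_filter, Finset.mem_powerset, Finset.subset_univ,
      true_and]
    constructor
    · rintro ⟨h4, h5⟩
      rcases h4.eq_or_ssubset with h6 | h6
      · exact Or.inl h6.symm
      · exact Or.inr ⟨h6, x.2.1.mono h4, h5⟩
    · rintro (rfl | ⟨h4, h5, h6⟩)
      · exact ⟨Finset.Subset.refl _, x.2.2⟩
      · exact ⟨h4.1, h6⟩
  rw [h3, Finset.sum_insert (by
    simp only [Finset.mem_filter, not_and]
    intro _ h
    exact absurd h (ssubset_irrefl _))] at h2
  rw [← sum_BV G (fun y => x.1 ⊂ y) (fun y => EE G Finset.univ y) (ab G x)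
    (fun y => mem_ab G) _ (fun y => by simp)] at h2
  linarith

theorem ee_be : ∀ (n : ℕ) (x : BV G), x.1.card = n →
    ee (bary G) (be G x) = (-1) ^ (x.1.card + 1) := by
  classical
  intro n
  induction n using Nat.strong_induction_on with
  | _ n ih =>
  intro x hx
  rw [down_formula G _ (be G x) rfl (by
    intro y hy z hz
    rw [mem_be] at hy ⊢
    exact hz.trans hy)]
  have h1 : ∑ y ∈ be G x, ee (bary G) (be G y) = ∑ y ∈ be G x, (-1 : ℤ) ^ (y.1.card + 1) := by
    refine Finset.sum_congr rfl fun y hy => ?_
    rw [mem_be] at hy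
    have h2 := Finset.card_lt_card hy
    exact ih y.1.card (by omega) y rfl
  rw [h1]
  have h2 := Finset.sum_powerset_neg_one_pow_card_of_nonempty x.2.1
  have h3 : x.1.powerset = insert x.1 (insert ∅
      ((Finset.univ : Finset V).powerset.filter
        (fun y => y ⊂ x.1 ∧ y.Nonempty ∧ G.IsClique (y : Set V)))) := by
    ext y
    simp only [Finset.mem_insert, Finset.mem_filter, Finset.mem_powerset, Finset.subset_univ,
      true_and]
    constructor
    · intro h4
      rcases h4.eq_or_ssubset with h6 | h6
      · exact Or.inl h6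
      · rcases y.eq_empty_or_nonempty with h7 | h7
        · exact Or.inr (Or.inl h7)
        · exact Or.inr (Or.inr ⟨h6, h7, x.2.2.subset (by simpa using h4)⟩)
    · rintro (rfl | rfl | ⟨h4, h5, h6⟩)
      · exact Finset.Subset.refl _
      · exact Finset.empty_subset _
      · exact h4.1
  rw [h3, Finset.sum_insert (by
      simp only [Finset.mem_insert, Finset.mem_filter, not_or, not_and]
      refine ⟨x.2.1.ne_empty, fun _ h => absurd h (ssubset_irrefl _)⟩),
    Finset.sum_insert (by
      simp only [Finset.mem_filter, not_and]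
      intro _ _ h
      exact absurd h Finset.not_nonempty_empty)] at h2
  rw [← sum_BV G (fun y => y ⊂ x.1) (fun y => (-1 : ℤ) ^ y.card) (be G x)
    (fun y => mem_be G) _ (fun y => by simp)] at h2
  have h5 : ∑ y ∈ be G x, (-1 : ℤ) ^ (y.1.card + 1) =
      - ∑ y ∈ be G x, (-1 : ℤ) ^ y.1.card := by
    rw [← Finset.sum_neg_distrib]
    refine Finset.sum_congr rfl fun y _ => ?_
    ring
  rw [h5, pow_succ]
  rw [Finset.card_empty, pow_zero] at h2
  linarith

/-- curvature of a simplex -/
theorem curv_eq (x : BV G) :
    curv G x = 1 + (-1) ^ x.1.card * EE G Finset.univ x.1 := by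
  classical
  unfold curv
  rw [chi_eq, ee_join (bary G) (ab G x) _ (be G x) rfl (by
    intro a ha c hc
    rw [mem_be] at ha
    rw [mem_ab] at hc
    exact Or.inl (ha.trans hc)) (sph (bary G) Finset.univ x) (by
    intro y
    rw [mem_sph, mem_be, mem_ab]
    constructor
    · rintro ⟨-, h | h⟩
      · exact Or.inr h
      · exact Or.inl h
    · rintro (h | h)
      · exact ⟨Finset.mem_univ _, Or.inr h⟩
      · exact ⟨Finset.mem_univ _, Or.inl h⟩), ee_ab G _ x rfl, ee_be G _ x rfl, pow_succ]
  ring

theorem eta_eq : eta G = ∑ x : BV G, curv G x := by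
  unfold eta curv
  exact gauss_bonnet (bary G)

end bary

theorem EE_sphere {V : Type} (G : SimpleGraph V) {n : ℕ} {T x : Finset V}
    (hx : x ⊆ T) (hcl : G.IsClique (x : Set V))
    (h : x.card ≤ n + 1 ∧ IsSphere G (n + 1 - x.card) (lk G T x)) :
    EE G T x = (-1) ^ (n + 1 + x.card) := by
  rw [EE_eq G T x hx hcl, ee_sphere G _ _ h.2]
  have : n + 1 + x.card = (n + 1 - x.card) + 2 * x.card := by omega
  rw [this, pow_add, pow_mul]
  norm_num

/-- odd-dimensional graphs have Euler characteristic zero -/
theorem ee_even {V : Type} (G : SimpleGraph V) (n : ℕ) (hn : Even n) (T : Finset V)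
    (hT : IsDGraph G n T) : ee G T = 1 := by
  classical
  rcases n with _ | n
  · have : T = ∅ := hT
    rw [this, ee_empty]
  · have h1 := sum_EE G T ∅ (Finset.empty_subset _) (by simp)
    have h2 : ∀ y ∈ T.powerset, (if ∅ ⊆ y ∧ G.IsClique (y : Set V) then EE G T y else 0) =
        (if G.IsClique (y : Set V) then (-1 : ℤ) ^ y.card else 0) +
          (if y = ∅ then ee G T - 1 else 0) := by
      intro y hy
      rw [Finset.mem_powerset] at hy
      by_cases hc : G.IsClique (y : Set V)
      · rw [if_pos ⟨Finset.empty_subset _, hc⟩, if_pos hc]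
        rcases y.eq_empty_or_nonempty with rfl | hne
        · rw [if_pos rfl, EE_eq G T ∅ hy hc]
          have : lk G T ∅ = T := by
            ext v; rw [mem_lk]; simp
          rw [this]
          simp
        · rw [if_neg hne.ne_empty, EE_sphere G hy hc (lemA G n T y hT hy hne hc), pow_add,
            hn.neg_one_pow]
          ring
      · rw [if_neg (fun h => hc h.2), if_neg hc, if_neg]
        · ring
        · rintro rfl
          exact hc (by simp)
    rw [Finset.sum_congr rfl h2, Finset.sum_add_distrib, Finset.sum_ite_eq',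
      if_pos (Finset.mem_powerset.mpr (Finset.empty_subset _))] at h1
    have h3 : ∑ y ∈ T.powerset, (if G.IsClique (y : Set V) then (-1 : ℤ) ^ y.card else 0) =
        ee G T := rfl
    rw [h3] at h1
    linarith

section final

variable {V : Type} [Fintype V] (G : SimpleGraph V)

/-- curvature of a simplex with at least two vertices -/
theorem curv_big {n : ℕ} (hG : IsVariety G (n + 1) Finset.univ) (x : BV G)
    (hx : 2 ≤ x.1.card) : EE G Finset.univ x.1 = (-1) ^ (n + 1 + x.1.card) :=
  EE_sphere G (Finset.subset_univ _) x.2.2 (lemB G n Finset.univ x.1 hG (Finset.subset_univ _)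
    hx x.2.2)

theorem curv_even {n : ℕ} (hG : IsVariety G (n + 1) Finset.univ) (hn : Even n) (x : BV G) :
    curv G x = 0 := by
  rw [curv_eq]
  have hc : 0 < x.1.card := Finset.card_pos.mpr x.2.1
  by_cases h : 2 ≤ x.1.card
  · rw [curv_big G hG x h, ← pow_add]
    have : Odd (x.1.card + (n + 1 + x.1.card)) := by
      obtain ⟨m, hm⟩ := hn
      exact ⟨x.1.card + m, by omega⟩
    rw [this.neg_one_pow]
    norm_num
  · have h1 : x.1.card = 1 := by omega
    obtain ⟨v, hv⟩ := Finset.card_eq_one.mp h1
    rw [EE_eq G _ _ (Finset.subset_univ _) x.2.2, h1, hv]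
    have h2 : lk G Finset.univ {v} = sph G Finset.univ v := by
      ext y; rw [mem_lk, mem_sph]; simp
    rw [h2, ee_even G n hn _ (sph_dgraph G n Finset.univ hG v (Finset.mem_univ _))]
    norm_num

open Classical in
theorem eta_odd {n : ℕ} (hG : IsVariety G (n + 1) Finset.univ) (hn : Odd n) :
    eta G = 4 * ((Finset.univ.filter fun x : BV G => Even x.1.card).card : ℤ) := by
  rw [eta_eq]
  have h0 : ∑ y : BV G, (EE G Finset.univ y.1 + (-1) ^ y.1.card) = 0 := by
    have h1 := sum_EE G Finset.univ ∅ (Finset.empty_subset _) (by simp)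
    rw [← Finset.sum_filter] at h1
    have h3 : (Finset.univ : Finset V).powerset.filter
        (fun y : Finset V => ∅ ⊆ y ∧ G.IsClique (y : Set V)) = insert ∅
        ((Finset.univ : Finset V).powerset.filter
          (fun y : Finset V => y.Nonempty ∧ G.IsClique (y : Set V))) := by
      ext y
      simp only [Finset.mem_insert, Finset.mem_filter, Finset.mem_powerset, Finset.subset_univ,
        true_and, Finset.empty_subset]
      constructor
      · intro h4
        rcases y.eq_empty_or_nonempty with h7 | h7
        · exact Or.inl h7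
        · exact Or.inr ⟨h7, h4⟩
      · rintro (rfl | ⟨h4, h5⟩)
        · simp
        · exact h5
    have hnm : (∅ : Finset V) ∉ ((Finset.univ : Finset V).powerset.filter
          (fun y : Finset V => y.Nonempty ∧ G.IsClique (y : Set V))) := by
      simp
    rw [h3, Finset.sum_insert hnm, ← sum_BV G (fun _ => True) (fun y => EE G Finset.univ y)
      Finset.univ (fun y => by simp) _ (fun y => by simp)] at h1
    have h4 : EE G Finset.univ ∅ = 1 + ∑ y : BV G, (-1 : ℤ) ^ y.1.card := by
      have h5 : EE G Finset.univ ∅ = ee G Finset.univ := by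
        rw [EE_eq G _ _ (Finset.empty_subset _) (by simp)]
        congr 1
        ext v; rw [mem_lk]; simp
      rw [h5]
      unfold ee
      rw [← Finset.sum_filter]
      have h6 : (Finset.univ : Finset V).powerset.filter
          (fun y : Finset V => G.IsClique (y : Set V)) = insert ∅
          ((Finset.univ : Finset V).powerset.filter
            (fun y : Finset V => y.Nonempty ∧ G.IsClique (y : Set V))) := by
        rw [← h3]
        ext y
        simp
      rw [h6, Finset.sum_insert hnm, ← sum_BV G (fun _ => True) (fun y => (-1 : ℤ) ^ y.card)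
        Finset.univ (fun y => by simp) _ (fun y => by simp)]
      simp
    rw [h4] at h1
    rw [Finset.sum_add_distrib]
    linarith
  have h1 : ∀ y : BV G, curv G y + (EE G Finset.univ y.1 + (-1) ^ y.1.card) =
      if Even y.1.card then 4 else 0 := by
    intro y
    rw [curv_eq]
    have hc : 0 < y.1.card := Finset.card_pos.mpr y.2.1
    by_cases h : 2 ≤ y.1.card
    · rw [curv_big G hG y h, pow_add, (Odd.add_one hn).neg_one_pow, one_mul, ← pow_add]
      by_cases he : Even y.1.card
      · rw [if_pos he, he.neg_one_pow, (Even.add he he).neg_one_pow]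
        norm_num
      · rw [if_neg he]
        have ho : Odd y.1.card := Nat.not_even_iff_odd.mp he
        rw [ho.neg_one_pow, (Odd.add_odd ho ho).neg_one_pow]
        norm_num
    · have h2 : y.1.card = 1 := by omega
      rw [h2, if_neg (by decide)]
      ring
  have h2 : ∑ y : BV G, curv G y = ∑ y : BV G, (if Even y.1.card then (4 : ℤ) else 0) := by
    rw [← Finset.sum_congr rfl fun y _ => h1 y, Finset.sum_add_distrib, h0, add_zero]
  rw [h2, ← Finset.sum_filter, Finset.sum_const, nsmul_eq_mul]
  ring

theorem eta_even {n : ℕ} (hG : IsVariety G (n + 1) Finset.univ) (hn : Even n) :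
    eta G = 0 := by
  rw [eta_eq]
  exact Finset.sum_eq_zero fun x _ => curv_even G hG hn x

theorem zero_iff {n : ℕ} (hG : IsVariety G (n + 1) Finset.univ) :
    ∑ x : BV G, curv G x = 0 ↔ ∀ x : BV G, curv G x = 0 := by
  classical
  constructor
  · intro h
    rcases Nat.even_or_odd n with hn | hn
    · exact curv_even G hG hn
    · rw [← eta_eq, eta_odd G hG hn] at h
      have h1 : (Finset.univ.filter fun x : BV G => Even x.1.card) = ∅ := by
        rw [← Finset.card_eq_zero]
        have : (0 : ℤ) ≤ ((Finset.univ.filter fun x : BV G => Even x.1.card).card : ℤ) := by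
          positivity
        have h2 : ((Finset.univ.filter fun x : BV G => Even x.1.card).card : ℤ) = 0 := by
          linarith
        exact_mod_cast h2
      have hedge : ∀ u v, ¬ G.Adj u v := by
        intro u v huv
        have hcl2 : G.IsClique (({u, v} : Finset V) : Set V) := by
          rw [Finset.coe_insert, Finset.coe_singleton, SimpleGraph.isClique_insert]
          refine ⟨by simp, fun b hb _ => ?_⟩
          rw [Set.mem_singleton_iff] at hb
          subst hb
          exact huv
        let e : BV G := ⟨{u, v}, ⟨u, by simp⟩, hcl2⟩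
        have hev : Even e.1.card := by
          show Even (({u, v} : Finset V).card)
          rw [Finset.card_pair huv.ne]
          decide
        have h3 : e ∈ (Finset.univ.filter fun x : BV G => Even x.1.card) :=
          Finset.mem_filter.mpr ⟨Finset.mem_univ e, hev⟩
        rw [h1] at h3
        exact absurd h3 (Finset.notMem_empty _)
      intro x
      rw [curv_eq]
      have h4 : x.1.card = 1 := by
        have hc : 0 < x.1.card := Finset.card_pos.mpr x.2.1
        by_contra hne
        obtain ⟨a, ha, b, hb, hab⟩ := Finset.one_lt_card.mp (show 1 < x.1.card by omega)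
        exact hedge a b (x.2.2 (by simpa using ha) (by simpa using hb) hab)
      have h5 : lk G Finset.univ x.1 = ∅ := by
        rw [Finset.eq_empty_iff_forall_notMem]
        intro v hv
        obtain ⟨a, ha⟩ := x.2.1
        exact hedge a v (((mem_lk G).mp hv).2 a ha)
      rw [EE_eq G _ _ (Finset.subset_univ _) x.2.2, h5, ee_empty, h4]
      norm_num
  · intro h
    exact Finset.sum_eq_zero fun x _ => h x

end final

end Pool.Agent.V11141.Eta
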