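import Mathlib

/-!
# The chromatic counting function and its numerator series: definitions
-/

namespace Pool.Agent.V11141.Chrom

/-- `χ_G(n)`: the number of maps `φ : V → {n colours}` with `φ u ≠ φ v` for every edge `uv`. -/
noncomputable def count {V : Type} (G : SimpleGraph V) (n : ℕ) : ℕ :=
  Nat.card {φ : V → Fin n // ∀ u v, G.Adj u v → φ u ≠ φ v}

/-- The generating series `∑ χ_G(n) z^n`. -/
noncomputable def gen {V : Type} (G : SimpleGraph V) : PowerSeries ℤ :=
  PowerSeries.mk fun n => (count G n : ℤ)

end Pool.Agent.V11141.Chrom
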