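import Mathlib
import Pool.Agent.V11141.ChromDef

/-!
# Nonnegativity and inequalities for the chromatic numerator polynomial
-/

namespace Pool.Agent.V11141.Chrom

open Finset PowerSeries

theorem card_strictMono (k N : ℕ) : Nat.card {t : Fin k → Fin N // StrictMono t} = N.choose k := by
  classical
  have h1 : Nat.card {s : Finset (Fin N) // s ∈ Finset.powersetCard k Finset.univ} =
      N.choose k := by
    rw [Nat.card_eq_fintype_card, Fintype.card_coe, Finset.card_powersetCard, Finset.card_univ,
      Fintype.card_fin]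
  rw [← h1]
  have hmem : ∀ t : {t : Fin k → Fin N // StrictMono t},
      Finset.univ.image t.1 ∈ Finset.powersetCard k (Finset.univ : Finset (Fin N)) := by
    intro t
    rw [Finset.mem_powersetCard]
    refine ⟨Finset.subset_univ _, ?_⟩
    rw [Finset.card_image_of_injective _ t.2.injective, Finset.card_univ, Fintype.card_fin]
  refine Nat.card_congr (Equiv.ofBijective (fun t => ⟨Finset.univ.image t.1, hmem t⟩) ⟨?_, ?_⟩)
  · intro t t' h
    have h2 : Finset.univ.image t.1 = Finset.univ.image t'.1 := congrArg Subtype.val h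
    have h3 : Set.range t.1 = Set.range t'.1 := by
      have := congrArg (fun s : Finset (Fin N) => (s : Set (Fin N))) h2
      simpa using this
    exact Subtype.ext ((StrictMono.range_inj t.2 t'.2).mp h3)
  · rintro ⟨s, hs⟩
    rw [Finset.mem_powersetCard] at hs
    refine ⟨⟨s.orderEmbOfFin hs.2, (s.orderEmbOfFin hs.2).strictMono⟩, ?_⟩
    apply Subtype.ext
    show Finset.univ.image (s.orderEmbOfFin hs.2) = s
    exact Finset.image_orderEmbOfFin_univ s hs.2

/-- number of weak positions before `i` -/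
def rr {m : ℕ} (D : Finset (Fin m)) (i : Fin (m + 1)) : ℕ :=
  (Finset.univ.filter fun j : Fin m => j.castSucc < i ∧ j ∉ D).card

theorem rr_le {m : ℕ} (D : Finset (Fin m)) (i : Fin (m + 1)) : rr D i ≤ m - D.card := by
  have h1 : (Finset.univ.filter fun j : Fin m => j.castSucc < i ∧ j ∉ D) ⊆ Finset.univ \ D := by
    intro j hj
    simp only [Finset.mem_filter, Finset.mem_univ, true_and] at hj
    simp [hj.2]
  have h2 := Finset.card_le_card h1
  rw [Finset.card_sdiff_of_subset (Finset.subset_univ D), Finset.card_univ, Fintype.card_fin] at h2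
  exact h2

theorem rr_succ {m : ℕ} (D : Finset (Fin m)) (i : Fin m) :
    rr D i.succ = rr D i.castSucc + if i ∈ D then 0 else 1 := by
  unfold rr
  by_cases h : i ∈ D
  · rw [if_pos h, add_zero]
    congr 1
    ext j
    simp only [Finset.mem_filter, Finset.mem_univ, true_and]
    constructor
    · rintro ⟨h1, h2⟩
      refine ⟨?_, h2⟩
      rw [Fin.castSucc_lt_succ_iff] at h1
      rcases h1.lt_or_eq with h3 | h3
      · exact Fin.castSucc_lt_castSucc_iff.mpr h3
      · exact absurd (h3 ▸ h) h2
    · rintro ⟨h1, h2⟩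
      exact ⟨h1.trans (Fin.castSucc_lt_succ), h2⟩
  · rw [if_neg h]
    have : (Finset.univ.filter fun j : Fin m => j.castSucc < i.succ ∧ j ∉ D) =
        insert i (Finset.univ.filter fun j : Fin m => j.castSucc < i.castSucc ∧ j ∉ D) := by
      ext j
      simp only [Finset.mem_filter, Finset.mem_univ, true_and, Finset.mem_insert]
      constructor
      · rintro ⟨h1, h2⟩
        rw [Fin.castSucc_lt_succ_iff] at h1
        rcases h1.lt_or_eq with h3 | h3
        · exact Or.inr ⟨Fin.castSucc_lt_castSucc_iff.mpr h3, h2⟩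
        · exact Or.inl h3
      · rintro (rfl | ⟨h1, h2⟩)
        · exact ⟨Fin.castSucc_lt_succ, h⟩
        · exact ⟨h1.trans (Fin.castSucc_lt_succ), h2⟩
    rw [this, Finset.card_insert_of_notMem]
    simp

theorem rr_last {m : ℕ} (D : Finset (Fin m)) : rr D (Fin.last m) = m - D.card := by
  have h1 : (Finset.univ.filter fun j : Fin m => j.castSucc < Fin.last m ∧ j ∉ D) =
      Finset.univ \ D := by
    ext j
    simp [Fin.castSucc_lt_last]
  unfold rr
  rw [h1, Finset.card_sdiff_of_subset (Finset.subset_univ D), Finset.card_univ, Fintype.card_fin]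

theorem rr_zero {m : ℕ} (D : Finset (Fin m)) : rr D 0 = 0 := by
  unfold rr
  rw [Finset.card_eq_zero, Finset.filter_eq_empty_iff]
  rintro j - ⟨h, -⟩
  exact absurd h (Fin.not_lt_zero _)

/-- the step condition -/
def Stp {m n : ℕ} (D : Finset (Fin m)) (t : Fin (m + 1) → Fin n) : Prop :=
  ∀ i : Fin m, t i.castSucc ≤ t i.succ ∧ (i ∈ D → t i.castSucc < t i.succ)

theorem card_seq {m n : ℕ} (D : Finset (Fin m)) :
    Nat.card {t : Fin (m + 1) → Fin n // Stp D t} = (n + m - D.card).choose (m + 1) := by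
  have hD : D.card ≤ m := by
    have := Finset.card_le_univ D
    rwa [Fintype.card_fin] at this
  rw [← card_strictMono]
  have hub : ∀ u : {u : Fin (m + 1) → Fin (n + m - D.card) // StrictMono u}, ∀ i,
      rr D i ≤ (u.1 i : ℕ) ∧ (u.1 i : ℕ) - rr D i < n := by
    intro u
    have hlow : ∀ i, rr D i ≤ (u.1 i : ℕ) := by
      intro i
      induction i using Fin.induction with
      | zero => rw [rr_zero]; exact Nat.zero_le _
      | succ i ih =>
        rw [rr_succ]
        have h1 : (u.1 i.castSucc : ℕ) < u.1 i.succ := u.2 Fin.castSucc_lt_succ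
        split_ifs <;> omega
    have hmono : Monotone fun i => (u.1 i : ℕ) - rr D i := by
      rw [Fin.monotone_iff_le_succ]
      intro i
      have h1 : (u.1 i.castSucc : ℕ) < u.1 i.succ := u.2 Fin.castSucc_lt_succ
      have h2 := hlow i.castSucc
      have h3 := rr_succ D i
      show (u.1 i.castSucc : ℕ) - rr D i.castSucc ≤ (u.1 i.succ : ℕ) - rr D i.succ
      split_ifs at h3 <;> omega
    intro i
    refine ⟨hlow i, lt_of_le_of_lt (hmono (Fin.le_last i)) ?_⟩
    show (u.1 (Fin.last m) : ℕ) - rr D (Fin.last m) < n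
    have h1 := (u.1 (Fin.last m)).2
    have h2 := hlow (Fin.last m)
    rw [rr_last] at h2 ⊢
    omega
  refine Nat.card_congr
    { toFun := fun t => ⟨fun i => ⟨t.1 i + rr D i, ?_⟩, ?_⟩
      invFun := fun u => ⟨fun i => ⟨(u.1 i : ℕ) - rr D i, (hub u i).2⟩, ?_⟩
      left_inv := ?_
      right_inv := ?_ }
  · have := rr_le D i
    have := (t.1 i).2
    omega
  · rw [Fin.strictMono_iff_lt_succ]
    intro i
    show (t.1 i.castSucc : ℕ) + rr D i.castSucc < t.1 i.succ + rr D i.succ
    rw [rr_succ]
    have h1 : (t.1 i.castSucc : ℕ) ≤ t.1 i.succ := (t.2 i).1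
    split_ifs with h
    · have h2 : (t.1 i.castSucc : ℕ) < t.1 i.succ := (t.2 i).2 h
      omega
    · omega
  · intro i
    have h1 : (u.1 i.castSucc : ℕ) < u.1 i.succ := u.2 Fin.castSucc_lt_succ
    have h2 := (hub u i.castSucc).1
    have h3 := rr_succ D i
    constructor
    · show (u.1 i.castSucc : ℕ) - rr D i.castSucc ≤ (u.1 i.succ : ℕ) - rr D i.succ
      split_ifs at h3 <;> omega
    · intro hi
      show (u.1 i.castSucc : ℕ) - rr D i.castSucc < (u.1 i.succ : ℕ) - rr D i.succ
      rw [if_pos hi] at h3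
      omega
  · intro t
    apply Subtype.ext
    funext i
    apply Fin.ext
    show (t.1 i : ℕ) + rr D i - rr D i = t.1 i
    omega
  · intro u
    apply Subtype.ext
    funext i
    apply Fin.ext
    show (u.1 i : ℕ) - rr D i + rr D i = u.1 i
    have := (hub u i).1
    omega

section labelling

variable {V : Type} {m : ℕ} (e0 : V ≃ Fin (m + 1))

open Classical in
/-- a labelling decreasing along the relation, if there is one -/
noncomputable def om (R : V → V → Prop) : V ≃ Fin (m + 1) :=
  if h : ∃ ω : V ≃ Fin (m + 1), ∀ u v, R u v → ω v < ω u then h.choose else e0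

theorem om_spec (R : V → V → Prop) (h : ∃ ω : V ≃ Fin (m + 1), ∀ u v, R u v → ω v < ω u) :
    ∀ u v, R u v → om e0 R v < om e0 R u := by
  unfold om
  rw [dif_pos h]
  exact h.choose_spec

variable (G : SimpleGraph V)

/-- relation induced by a function to an order -/
def Rel {α : Type} [LT α] (G : SimpleGraph V) (c : V → α) : V → V → Prop :=
  fun u v => G.Adj u v ∧ c u < c v

theorem om_lt (w : V ≃ Fin (m + 1)) (u v : V) (h : Rel G w u v) :
    om e0 (Rel G w) v < om e0 (Rel G w) u := by
  refine om_spec e0 (Rel G w) ⟨w.trans Fin.revPerm, fun u v h => ?_⟩ u v h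
  show Fin.rev (w v) < Fin.rev (w u)
  rw [Fin.rev_lt_rev]
  exact h.2

open Classical in
/-- descent set -/
noncomputable def Ds (w : V ≃ Fin (m + 1)) : Finset (Fin m) :=
  Finset.univ.filter fun i => om e0 (Rel G w) (w.symm i.succ) < om e0 (Rel G w) (w.symm i.castSucc)

theorem stp_iff {n : ℕ} (w : V ≃ Fin (m + 1)) (t : Fin (m + 1) → Fin n) :
    Stp (Ds e0 G w) t ↔ StrictMono fun i => toLex (t i, om e0 (Rel G w) (w.symm i)) := by
  rw [Fin.strictMono_iff_lt_succ]
  refine forall_congr' fun i => ?_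
  rw [Prod.Lex.toLex_lt_toLex]
  have hne : om e0 (Rel G w) (w.symm i.castSucc) ≠ om e0 (Rel G w) (w.symm i.succ) := by
    intro h
    have := w.symm.injective ((om e0 (Rel G w)).injective h)
    exact absurd this (ne_of_lt Fin.castSucc_lt_succ)
  constructor
  · rintro ⟨h1, h2⟩
    rcases h1.lt_or_eq with h3 | h3
    · exact Or.inl h3
    · right
      refine ⟨h3, ?_⟩
      by_contra h4
      have h5 : i ∈ Ds e0 G w := by
        unfold Ds
        rw [Finset.mem_filter]
        exact ⟨Finset.mem_univ _, lt_of_le_of_ne (not_lt.mp h4) hne.symm⟩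
      exact absurd h3 (ne_of_lt (h2 h5))
  · rintro (h | ⟨h1, h2⟩)
    · exact ⟨h.le, fun _ => h⟩
    · refine ⟨h1.le, fun h3 => ?_⟩
      unfold Ds at h3
      rw [Finset.mem_filter] at h3
      exact absurd h2 (not_lt.mpr h3.2.le)

/-- the order determined by a compatible pair -/
theorem lt_key {n : ℕ} (w : V ≃ Fin (m + 1)) (t : Fin (m + 1) → Fin n)
    (h : Stp (Ds e0 G w) t) (u v : V) (huv : w u < w v) :
    toLex (t (w u), om e0 (Rel G w) u) < toLex (t (w v), om e0 (Rel G w) v) := by
  rw [stp_iff] at h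
  have := h huv
  simpa using this

theorem proper_of_stp {n : ℕ} (w : V ≃ Fin (m + 1)) (t : Fin (m + 1) → Fin n)
    (h : Stp (Ds e0 G w) t) (u v : V) (huv : G.Adj u v) : t (w u) ≠ t (w v) := by
  have key : ∀ u v, G.Adj u v → w u < w v → t (w u) ≠ t (w v) := by
    intro u v huv hlt heq
    have h1 := lt_key e0 G w t h u v hlt
    rw [Prod.Lex.toLex_lt_toLex] at h1
    rcases h1 with h1 | h1
    · exact absurd heq (ne_of_lt h1)
    · exact absurd h1.2 (not_lt.mpr (om_lt e0 G w u v ⟨huv, hlt⟩).le)
  rcases lt_trichotomy (w u) (w v) with h1 | h1 | h1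
  · exact key u v huv h1
  · exact absurd (w.injective h1) huv.ne
  · exact (key v u huv.symm h1).symm

theorem rel_eq {n : ℕ} (w : V ≃ Fin (m + 1)) (t : Fin (m + 1) → Fin n)
    (h : Stp (Ds e0 G w) t) : Rel G w = Rel G (fun v => t (w v)) := by
  have key : ∀ u v, G.Adj u v → w u < w v → t (w u) < t (w v) := by
    intro u v huv hlt
    have h1 := lt_key e0 G w t h u v hlt
    rw [Prod.Lex.toLex_lt_toLex] at h1
    rcases h1 with h1 | h1
    · exact h1
    · exact absurd h1.1 (proper_of_stp e0 G w t h u v huv)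
  funext u v
  apply propext
  constructor
  · rintro ⟨h1, h2⟩
    exact ⟨h1, key u v h1 h2⟩
  · rintro ⟨h1, h2⟩
    refine ⟨h1, ?_⟩
    rcases lt_trichotomy (w u) (w v) with h3 | h3 | h3
    · exact h3
    · exact absurd (w.injective h3) h1.ne
    · exact absurd h2 (not_lt.mpr (key v u h1.symm h3).le)

/-- the decomposition of proper colourings -/
noncomputable def Fmap (n : ℕ) : (Σ w : V ≃ Fin (m + 1), {t : Fin (m + 1) → Fin n //
    Stp (Ds e0 G w) t}) → {φ : V → Fin n // ∀ u v, G.Adj u v → φ u ≠ φ v} :=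
  fun x => ⟨fun v => x.2.1 (x.1 v), fun u v huv => proper_of_stp e0 G x.1 x.2.1 x.2.2 u v huv⟩

theorem Fmap_inj (n : ℕ) : Function.Injective (Fmap e0 G n) := by
  rintro ⟨w, t, ht⟩ ⟨w', t', ht'⟩ h
  have hc : ∀ v, t (w v) = t' (w' v) := fun v => congrFun (congrArg Subtype.val h) v
  have hR : Rel G w = Rel G w' := by
    rw [rel_eq e0 G w t ht, rel_eq e0 G w' t' ht']
    congr 1
    funext v
    exact hc v
  have hlt : ∀ u v, w u < w v → w' u < w' v := by
    intro u v huv
    have h1 := lt_key e0 G w t ht u v huv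
    rw [hR, hc, hc] at h1
    rcases lt_trichotomy (w' u) (w' v) with h3 | h3 | h3
    · exact h3
    · exact absurd (w'.injective h3) (by rintro rfl; exact lt_irrefl _ huv)
    · exact absurd h1 (not_lt.mpr (lt_key e0 G w' t' ht' v u h3).le)
  have hmono : StrictMono fun i => w' (w.symm i) := by
    intro i j hij
    apply hlt
    simpa using hij
  have hid : ∀ i, w' (w.symm i) = i := by
    have h1 : (fun i => w' (w.symm i)) = id := by
      refine (StrictMono.range_inj hmono strictMono_id).mp ?_
      have : Function.Surjective fun i => w' (w.symm i) := by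
        intro j
        exact ⟨w (w'.symm j), by simp⟩
      rw [this.range_eq, Set.range_id]
    exact fun i => congrFun h1 i
  have hw : w = w' := by
    ext v
    have := hid (w v)
    rw [Equiv.symm_apply_apply] at this
    rw [this]
  subst hw
  have htt : t = t' := by
    funext i
    have := hc (w.symm i)
    simpa using this
  subst htt
  rfl

theorem Fmap_surj [Fintype V] (hV : Fintype.card V = m + 1) (n : ℕ) :
    Function.Surjective (Fmap e0 G n) := by
  rintro ⟨c, hc⟩
  let ω := om e0 (Rel G c)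
  let key : V → Fin n ×ₗ Fin (m + 1) := fun v => toLex (c v, ω v)
  have hinj : Function.Injective key := by
    intro u v h
    have h1 : (c u, ω u) = (c v, ω v) := h
    rw [Prod.mk.injEq] at h1
    exact ω.injective h1.2
  let lo : LinearOrder V := LinearOrder.lift' key hinj
  let e : Fin (m + 1) ≃o V := Fintype.orderIsoFinOfCardEq V hV
  have he : StrictMono fun i => key (e i) := fun i j hij => e.strictMono hij
  let w : V ≃ Fin (m + 1) := e.toEquiv.symm
  have hwlt : ∀ u v, w u < w v ↔ key u < key v := by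
    intro u v
    constructor
    · intro h
      have := he h
      simpa [w] using this
    · intro h
      by_contra h1
      rcases (not_lt.mp h1).lt_or_eq with h2 | h2
      · have := he h2
        have h3 : key v < key u := by simpa [w] using this
        exact lt_asymm h h3
      · have : v = u := w.injective h2
        subst this
        exact lt_irrefl _ h
  have hR : Rel G w = Rel G c := by
    funext u v
    apply propext
    constructor
    · rintro ⟨h1, h2⟩
      refine ⟨h1, ?_⟩
      rw [hwlt] at h2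
      rcases Prod.Lex.toLex_lt_toLex.mp h2 with h3 | h3
      · exact h3
      · exact absurd h3.1 (hc u v h1)
    · rintro ⟨h1, h2⟩
      refine ⟨h1, ?_⟩
      rw [hwlt]
      exact Prod.Lex.toLex_lt_toLex.mpr (Or.inl h2)
  have hst : Stp (Ds e0 G w) (fun i => c (w.symm i)) := by
    rw [stp_iff, hR]
    exact he
  refine ⟨⟨w, fun i => c (w.symm i), hst⟩, ?_⟩
  apply Subtype.ext
  funext v
  show c (w.symm (w v)) = c v
  rw [Equiv.symm_apply_apply]

theorem count_eq [Fintype V] [DecidableEq V] (hV : Fintype.card V = m + 1) (n : ℕ) :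
    count G n = ∑ w : V ≃ Fin (m + 1), (n + m - (Ds e0 G w).card).choose (m + 1) := by
  unfold count
  rw [← Nat.card_congr (Equiv.ofBijective (Fmap e0 G n)
    ⟨Fmap_inj e0 G n, Fmap_surj e0 G hV n⟩), Nat.card_sigma]
  exact Finset.sum_congr rfl fun w _ => card_seq _

end labelling

theorem series_choose (m s : ℕ) (hs : s ≤ m) :
    (1 - X : ℤ⟦X⟧) ^ (m + 2) * PowerSeries.mk (fun n => (((n + m - s).choose (m + 1) : ℕ) : ℤ)) =
      X ^ (s + 1) := by
  have h1 : PowerSeries.mk (fun n => (((n + m - s).choose (m + 1) : ℕ) : ℤ)) =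
      (X : ℤ⟦X⟧) ^ (s + 1) * PowerSeries.mk (fun n => (((m + 1 + n).choose (m + 1) : ℕ) : ℤ)) := by
    ext n
    rw [PowerSeries.coeff_mk, PowerSeries.coeff_X_pow_mul']
    split_ifs with h
    · rw [PowerSeries.coeff_mk]
      congr 2
      omega
    · rw [Nat.choose_eq_zero_of_lt (by omega)]
      rfl
  have h2 : (1 - X : ℤ⟦X⟧) ^ (m + 2) *
      PowerSeries.mk (fun n => (((m + 1 + n).choose (m + 1) : ℕ) : ℤ)) = 1 := by
    have h3 := PowerSeries.invOneSubPow_inv_eq_one_sub_pow ℤ (m + 2)
    have h4 := (PowerSeries.invOneSubPow ℤ (m + 2)).inv_val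
    rw [PowerSeries.invOneSubPow_val_succ_eq_mk_add_choose] at h4
    have h5 : (PowerSeries.invOneSubPow ℤ (m + 2)).inv = (1 - X : ℤ⟦X⟧) ^ (m + 2) := h3
    rw [← h5]
    exact h4
  rw [h1, mul_left_comm, h2, mul_one]

/-- the numerator series -/
noncomputable def hs {V : Type} [Fintype V] (G : SimpleGraph V) : ℤ⟦X⟧ :=
  (1 - X) ^ (Fintype.card V + 1) * gen G

theorem hs_eq {V : Type} [Fintype V] [Nonempty V] (G : SimpleGraph V) :
    ∃ (ι : Type) (_ : Fintype ι) (s : ι → ℕ), (∀ w, s w + 1 ≤ Fintype.card V) ∧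
      hs G = ∑ w, (X : ℤ⟦X⟧) ^ (s w + 1) := by
  classical
  obtain ⟨m, hm⟩ : ∃ m, Fintype.card V = m + 1 :=
    ⟨Fintype.card V - 1, by have : 0 < Fintype.card V := Fintype.card_pos; omega⟩
  have e0 : V ≃ Fin (m + 1) := Fintype.equivFinOfCardEq hm
  have hD : ∀ w : V ≃ Fin (m + 1), (Ds e0 G w).card ≤ m := by
    intro w
    have := Finset.card_le_univ (Ds e0 G w)
    rwa [Fintype.card_fin] at this
  refine ⟨V ≃ Fin (m + 1), inferInstance, fun w => (Ds e0 G w).card,
    fun w => by rw [hm]; exact Nat.succ_le_succ (hD w), ?_⟩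
  unfold hs gen
  rw [hm]
  have h1 : (PowerSeries.mk fun n => (count G n : ℤ)) =
      ∑ w : V ≃ Fin (m + 1), PowerSeries.mk
        (fun n => (((n + m - (Ds e0 G w).card).choose (m + 1) : ℕ) : ℤ)) := by
    ext n
    rw [map_sum]
    simp only [PowerSeries.coeff_mk]
    rw [count_eq e0 G hm n]
    push_cast
    rfl
  rw [h1, Finset.mul_sum]
  exact Finset.sum_congr rfl fun w _ => series_choose m _ (hD w)

theorem hs_nonneg {V : Type} [Fintype V] [Nonempty V] (G : SimpleGraph V) (i : ℕ) :
    0 ≤ coeff i (hs G) := by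
  obtain ⟨ι, _, s, -, h⟩ := hs_eq G
  rw [h, map_sum]
  refine Finset.sum_nonneg fun w _ => ?_
  rw [PowerSeries.coeff_X_pow]
  split_ifs <;> norm_num

theorem hs_big {V : Type} [Fintype V] [Nonempty V] (G : SimpleGraph V) (i : ℕ)
    (hi : Fintype.card V < i) : coeff i (hs G) = 0 := by
  obtain ⟨ι, _, s, hs', h⟩ := hs_eq G
  rw [h, map_sum]
  refine Finset.sum_eq_zero fun w _ => ?_
  rw [PowerSeries.coeff_X_pow, if_neg]
  have := hs' w
  omega

/-! ### Deletion and contraction -/

/-- contraction of the edge `uv` onto `u` -/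
def contr {V : Type} (G : SimpleGraph V) (u v : V) : SimpleGraph {x : V // x ≠ v} where
  Adj x y := x ≠ y ∧ (G.Adj x y ∨ ((x : V) = u ∧ G.Adj v y) ∨ ((y : V) = u ∧ G.Adj v x))
  symm := ⟨fun x y h => ⟨h.1.symm, by
    rcases h.2 with h | h | h
    · exact Or.inl h.symm
    · exact Or.inr (Or.inr h)
    · exact Or.inr (Or.inl h)⟩⟩
  loopless := ⟨fun x h => h.1 rfl⟩

theorem count_del {V : Type} [Finite V] (G : SimpleGraph V) (u v : V) (huv : G.Adj u v) (n : ℕ) :
    count (G.deleteEdges {s(u, v)}) n = count G n + count (contr G u v) n := by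
  classical
  unfold count
  rw [← Nat.card_sum]
  symm
  have hne : u ≠ v := huv.ne
  have hdel : ∀ x y, (G.deleteEdges {s(u, v)}).Adj x y ↔ G.Adj x y ∧ s(x, y) ≠ s(u, v) := by
    intro x y
    rw [SimpleGraph.deleteEdges_adj]
    simp
  let ext : ({x : V // x ≠ v} → Fin n) → (V → Fin n) := fun ψ x =>
    if h : x = v then ψ ⟨u, hne⟩ else ψ ⟨x, h⟩
  have extv : ∀ ψ, ext ψ v = ψ ⟨u, hne⟩ := fun ψ => by simp [ext]
  have extx : ∀ ψ x (h : x ≠ v), ext ψ x = ψ ⟨x, h⟩ := fun ψ x h => by simp [ext, h]
  have hprop : ∀ ψ : {x : V // x ≠ v} → Fin n, (∀ x y, (contr G u v).Adj x y → ψ x ≠ ψ y) →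
      ∀ x y, (G.deleteEdges {s(u, v)}).Adj x y → ext ψ x ≠ ext ψ y := by
    intro ψ hψ x y hxy
    rw [hdel] at hxy
    obtain ⟨h1, h2⟩ := hxy
    by_cases hx : x = v
    · subst hx
      have hy : y ≠ x := h1.ne.symm
      have hyu : y ≠ u := by
        rintro rfl
        exact h2 Sym2.eq_swap
      rw [extv, extx ψ y hy]
      refine hψ _ _ ⟨?_, Or.inr (Or.inl ⟨rfl, h1⟩)⟩
      intro h
      exact hyu (congrArg Subtype.val h).symm
    · by_cases hy : y = v
      · subst hy
        have hxu : x ≠ u := by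
          rintro rfl
          exact h2 rfl
        rw [extv, extx ψ x hx]
        refine hψ _ _ ⟨?_, Or.inr (Or.inr ⟨rfl, h1.symm⟩)⟩
        intro h
        exact hxu (congrArg Subtype.val h)
      · rw [extx ψ x hx, extx ψ y hy]
        refine hψ _ _ ⟨?_, Or.inl h1⟩
        intro h
        exact h1.ne (congrArg Subtype.val h)
  refine Nat.card_congr (Equiv.ofBijective (Sum.elim
    (fun φ => ⟨φ.1, fun x y hxy => φ.2 x y ((hdel x y).mp hxy).1⟩)
    (fun ψ => ⟨ext ψ.1, hprop ψ.1 ψ.2⟩)) ⟨?_, ?_⟩)
  · rintro (φ | ψ) (φ' | ψ') h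
    · have := congrArg Subtype.val h
      exact congrArg Sum.inl (Subtype.ext this)
    · exfalso
      have h1 : φ.1 = ext ψ'.1 := congrArg Subtype.val h
      have h2 := φ.2 u v huv
      rw [h1, extv, extx ψ'.1 u hne] at h2
      exact h2 rfl
    · exfalso
      have h1 : ext ψ.1 = φ'.1 := congrArg Subtype.val h
      have h2 := φ'.2 u v huv
      rw [← h1, extv, extx ψ.1 u hne] at h2
      exact h2 rfl
    · have h1 : ext ψ.1 = ext ψ'.1 := congrArg Subtype.val h
      refine congrArg Sum.inr (Subtype.ext ?_)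
      funext x
      have h2 := congrFun h1 x.1
      rwa [extx _ _ x.2, extx _ _ x.2] at h2
  · rintro ⟨φ, hφ⟩
    by_cases h : φ u = φ v
    · refine ⟨Sum.inr ⟨fun x => φ x.1, ?_⟩, ?_⟩
      · rintro ⟨x, hx⟩ ⟨y, hy⟩ ⟨hxy, h1 | ⟨h1, h2⟩ | ⟨h1, h2⟩⟩
        · refine hφ x y ((hdel x y).mpr ⟨h1, ?_⟩)
          intro h3
          rw [Sym2.eq_iff] at h3
          rcases h3 with ⟨h3, h4⟩ | ⟨h3, h4⟩
          · exact hy h4
          · exact hx h3
        · have h1' : x = u := h1
          subst h1'
          show φ x ≠ φ y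
          rw [h]
          refine hφ v y ((hdel v y).mpr ⟨h2, ?_⟩)
          intro h3
          rw [Sym2.eq_iff] at h3
          rcases h3 with ⟨h3, h4⟩ | ⟨h3, h4⟩
          · exact hne h3.symm
          · exact hxy (Subtype.ext h4.symm)
        · have h1' : y = u := h1
          subst h1'
          show φ x ≠ φ y
          rw [h]
          refine (hφ v x ((hdel v x).mpr ⟨h2, ?_⟩)).symm
          intro h3
          rw [Sym2.eq_iff] at h3
          rcases h3 with ⟨h3, h4⟩ | ⟨h3, h4⟩
          · exact hne h3.symm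
          · exact hxy (Subtype.ext h4)
      · apply Subtype.ext
        funext x
        show (if h : x = v then φ u else φ x) = φ x
        by_cases hx : x = v
        · rw [dif_pos hx, hx]
          exact h
        · rw [dif_neg hx]
    · refine ⟨Sum.inl ⟨φ, ?_⟩, rfl⟩
      intro x y hxy
      by_cases h3 : s(x, y) = s(u, v)
      · rw [Sym2.eq_iff] at h3
        rcases h3 with ⟨rfl, rfl⟩ | ⟨rfl, rfl⟩
        · exact h
        · exact fun h4 => h h4.symm
      · exact hφ x y ((hdel x y).mpr ⟨hxy, h3⟩)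

theorem hs_del {V : Type} [Fintype V] [DecidableEq V] (G : SimpleGraph V) (u v : V)
    (huv : G.Adj u v) :
    hs G = hs (G.deleteEdges {s(u, v)}) - (1 - X) * hs (contr G u v) := by
  have hcard : Fintype.card V = Fintype.card {x : V // x ≠ v} + 1 := by
    have h1 := Fintype.card_subtype_compl (fun x : V => x = v)
    rw [Fintype.card_subtype_eq] at h1
    have h2 : 0 < Fintype.card V := Fintype.card_pos_iff.mpr ⟨v⟩
    have h3 : Fintype.card {x : V // x ≠ v} = Fintype.card V - 1 := by
      rw [← h1]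
    omega
  have hgen : gen (G.deleteEdges {s(u, v)}) = gen G + gen (contr G u v) := by
    ext n
    unfold gen
    rw [map_add, PowerSeries.coeff_mk, PowerSeries.coeff_mk, PowerSeries.coeff_mk,
      count_del G u v huv n]
    push_cast
    ring
  unfold hs
  rw [hgen, hcard]
  ring

/-! ### Eulerian numbers -/

/-- numerator series of `n ^ d` -/
noncomputable def eul (d : ℕ) : ℤ⟦X⟧ := (1 - X) ^ (d + 1) * PowerSeries.mk fun n => (n : ℤ) ^ d

theorem eul_zero : eul 0 = 1 := by
  unfold eul
  have h := PowerSeries.mk_one_mul_one_sub_eq_one ℤ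
  simp only [pow_zero, zero_add, pow_one]
  rw [mul_comm]
  exact h

theorem eul_succ (d : ℕ) : eul (d + 1) =
    X * (1 - X) * (PowerSeries.derivative ℤ (eul d)) + ((d : ℤ) + 1) • (X * eul d) := by
  have h1 : (PowerSeries.mk fun n => (n : ℤ) ^ (d + 1)) =
      X * PowerSeries.derivative ℤ (PowerSeries.mk fun n => (n : ℤ) ^ d) := by
    ext n
    rcases n with _ | n
    · simp
    · rw [PowerSeries.coeff_succ_X_mul, PowerSeries.coeff_derivative, PowerSeries.coeff_mk,
        PowerSeries.coeff_mk]
      push_cast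
      ring
  unfold eul
  rw [h1, Derivation.leibniz, Derivation.leibniz_pow]
  have h2 : PowerSeries.derivative ℤ (1 - X : ℤ⟦X⟧) = -1 := by
    rw [map_sub]
    simp [PowerSeries.derivative_X]
  rw [h2]
  simp only [smul_eq_mul, nsmul_eq_mul, zsmul_eq_mul]
  push_cast
  ring

theorem coeff_eul_succ (d j : ℕ) : coeff (j + 1) (eul (d + 1)) =
    ((j : ℤ) + 1) * coeff (j + 1) (eul d) + ((d : ℤ) + 1 - j) * coeff j (eul d) := by
  rw [eul_succ, map_add, map_zsmul, PowerSeries.coeff_succ_X_mul, mul_assoc,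
    PowerSeries.coeff_succ_X_mul, sub_mul, one_mul, map_sub, PowerSeries.coeff_derivative]
  rcases j with _ | j
  · simp
  · rw [PowerSeries.coeff_succ_X_mul, PowerSeries.coeff_derivative]
    simp only [smul_eq_mul]
    push_cast
    ring

theorem coeff_eul_zero (d : ℕ) : coeff 0 (eul (d + 1)) = 0 := by
  rw [eul_succ]
  simp

theorem coeff_eul_big (d : ℕ) : ∀ j, d < j → coeff j (eul d) = 0 := by
  induction d with
  | zero =>
    intro j hj
    rw [eul_zero, PowerSeries.coeff_one, if_neg (by omega)]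
  | succ d ih =>
    intro j hj
    obtain ⟨j, rfl⟩ : ∃ k, j = k + 1 := ⟨j - 1, by omega⟩
    rw [coeff_eul_succ, ih (j + 1) (by omega), ih j (by omega)]
    ring

theorem eul_symm (d : ℕ) : ∀ j k, j + k = d + 2 →
    coeff j (eul (d + 1)) = coeff k (eul (d + 1)) := by
  induction d with
  | zero =>
    intro j k hjk
    have h0 : coeff 0 (eul 1) = 0 := coeff_eul_zero 0
    have h2 : coeff 2 (eul 1) = 0 := coeff_eul_big 1 2 (by norm_num)
    have : j = 0 ∨ j = 1 ∨ j = 2 := by omega
    rcases this with rfl | rfl | rfl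
    · obtain rfl : k = 2 := by omega
      show coeff 0 (eul 1) = coeff 2 (eul 1)
      rw [h0, h2]
    · obtain rfl : k = 1 := by omega
      rfl
    · obtain rfl : k = 0 := by omega
      show coeff 2 (eul 1) = coeff 0 (eul 1)
      rw [h0, h2]
  | succ d ih =>
    have key : ∀ k, k = d + 3 → coeff k (eul (d + 2)) = 0 := by
      rintro k rfl
      exact coeff_eul_big (d + 2) (d + 3) (by omega)
    intro j k hjk
    rcases j with _ | j
    · rw [coeff_eul_zero, key k (by omega)]
    · rcases k with _ | k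
      · rw [coeff_eul_zero, key (j + 1) (by omega)]
      · have e1 := coeff_eul_succ (d + 1) j
        have e2 := coeff_eul_succ (d + 1) k
        rw [e1, e2, ih (j + 1) k (by omega), ih j (k + 1) (by omega)]
        have h1 : (j : ℤ) + k = d + 1 := by exact_mod_cast (by omega : j + k = d + 1)
        have h2 : (j : ℤ) = d + 1 - k := by linarith
        rw [h2]
        push_cast
        ring

theorem hs_bot {V : Type} [Fintype V] : hs (⊥ : SimpleGraph V) = eul (Fintype.card V) := by
  unfold hs eul gen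
  congr 2
  funext n
  unfold count
  have : Nat.card {φ : V → Fin n // ∀ u v, (⊥ : SimpleGraph V).Adj u v → φ u ≠ φ v} =
      Nat.card (V → Fin n) :=
    Nat.card_congr (Equiv.subtypeUnivEquiv fun φ u v h => absurd h (by simp))
  rw [this, Nat.card_fun, Nat.card_eq_fintype_card, Nat.card_eq_fintype_card, Fintype.card_fin]
  push_cast
  rfl

/-! ### Main inequalities -/

/-- partial sums of coefficients -/
noncomputable def S (h : ℤ⟦X⟧) (k : ℕ) : ℤ := ∑ j ∈ Finset.range k, coeff j h

theorem S_sub (h g : ℤ⟦X⟧) (k : ℕ) : S (h - (1 - X) * g) (k + 1) = S h (k + 1) - coeff k g := by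
  have h1 : ∀ k, S ((1 - X) * g) (k + 1) = coeff k g := by
    intro k
    induction k with
    | zero => simp [S, sub_mul]
    | succ k ih =>
      unfold S at ih ⊢
      rw [Finset.sum_range_succ, ih, sub_mul, one_mul, map_sub, PowerSeries.coeff_succ_X_mul]
      ring
  unfold S at h1 ⊢
  simp only [map_sub]
  rw [Finset.sum_sub_distrib, h1]

theorem S_eul (d i : ℕ) (hi : i ≤ d + 1) :
    S (eul (d + 1)) (d + 2) - S (eul (d + 1)) (d + 2 - i) = S (eul (d + 1)) (i + 1) := by
  induction i with
  | zero =>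
    simp only [Nat.sub_zero, sub_self, zero_add, S, Finset.sum_range_one, coeff_eul_zero]
  | succ i ih =>
    have h1 := ih (by omega)
    have h2 : S (eul (d + 1)) (d + 2 - i) = S (eul (d + 1)) (d + 2 - (i + 1)) +
        coeff (d + 2 - (i + 1)) (eul (d + 1)) := by
      have : d + 2 - i = (d + 2 - (i + 1)) + 1 := by omega
      rw [this]
      unfold S
      rw [Finset.sum_range_succ]
    have h3 : S (eul (d + 1)) (i + 1 + 1) = S (eul (d + 1)) (i + 1) +
        coeff (i + 1) (eul (d + 1)) := by
      unfold S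
      rw [Finset.sum_range_succ]
    have h4 := eul_symm d (i + 1) (d + 2 - (i + 1)) (by omega)
    rw [h3, ← h1, h2, h4]
    ring

/-- the numerator is a polynomial -/
theorem exists_poly {V : Type} [Fintype V] [Nonempty V] (G : SimpleGraph V) :
    ∃ h : Polynomial ℤ, h.natDegree ≤ Fintype.card V ∧ hs G = (h : ℤ⟦X⟧) := by
  refine ⟨PowerSeries.trunc (Fintype.card V + 1) (hs G), ?_, ?_⟩
  · have := PowerSeries.natDegree_trunc_lt (hs G) (Fintype.card V)
    omega
  · ext i
    rw [Polynomial.coeff_coe, PowerSeries.coeff_trunc]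
    split_ifs with h
    · rfl
    · exact hs_big G i (by omega)

theorem S_coe (h : Polynomial ℤ) (k : ℕ) : S (h : ℤ⟦X⟧) k = ∑ j ∈ Finset.range k, h.coeff j := by
  unfold S
  simp only [Polynomial.coeff_coe]

theorem main (V : Type) [Fintype V] [Nonempty V] (N : ℕ) : ∀ G : SimpleGraph V,
    G.edgeSet.ncard = N →
    (∀ i, i ≤ Fintype.card V → 0 ≤ S (hs G) (Fintype.card V + 1) -
      S (hs G) (Fintype.card V + 1 - i) - S (hs G) (i + 1)) ∧
    (∀ i, i < Fintype.card V → 0 ≤ S (hs G) (Fintype.card V + 1) -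
      S (hs G) (Fintype.card V - i) - S (hs G) (i + 1)) := by
  classical
  induction N using Nat.strong_induction_on with
  | _ N ih =>
  intro G hG
  by_cases hbot : G = ⊥
  · subst hbot
    have hnn := hs_nonneg (⊥ : SimpleGraph V)
    rw [hs_bot] at hnn ⊢
    obtain ⟨d, hd⟩ : ∃ d, Fintype.card V = d + 1 :=
      ⟨Fintype.card V - 1, by have : 0 < Fintype.card V := Fintype.card_pos; omega⟩
    rw [hd] at hnn ⊢
    constructor
    · intro i hi
      rw [S_eul d i hi, sub_self]
    · intro i hi
      have h1 := S_eul d (i + 1) (by omega)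
      have h2 : d + 2 - (i + 1) = d + 1 - i := by omega
      rw [h2] at h1
      rw [h1]
      have h3 : S (eul (d + 1)) (i + 1 + 1) = S (eul (d + 1)) (i + 1) +
          coeff (i + 1) (eul (d + 1)) := by
        unfold S
        rw [Finset.sum_range_succ]
      rw [h3]
      have := hnn (i + 1)
      linarith
  · obtain ⟨u, v, huv⟩ : ∃ u v, G.Adj u v := by
      by_contra hcon
      push Not at hcon
      apply hbot
      ext u v
      simp [hcon u v]
    have hlt : (G.deleteEdges {s(u, v)}).edgeSet.ncard < N := by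
      rw [← hG]
      apply Set.ncard_lt_ncard _ (Set.toFinite _)
      rw [SimpleGraph.edgeSet_deleteEdges]
      refine ⟨Set.sdiff_subset, fun h => ?_⟩
      have h1 : s(u, v) ∈ G.edgeSet := huv
      exact (h h1).2 rfl
    obtain ⟨ih1, ih2⟩ := ih _ hlt (G.deleteEdges {s(u, v)}) rfl
    have : Nonempty {x : V // x ≠ v} := ⟨⟨u, huv.ne⟩⟩
    have hcard : Fintype.card V = Fintype.card {x : V // x ≠ v} + 1 := by
      have h1 := Fintype.card_subtype_compl (fun x : V => x = v)
      rw [Fintype.card_subtype_eq] at h1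
      have h2 : 0 < Fintype.card V := Fintype.card_pos_iff.mpr ⟨v⟩
      have h3 : Fintype.card {x : V // x ≠ v} = Fintype.card V - 1 := by
        rw [← h1]
      omega
    have hK := hs_nonneg (contr G u v)
    have hK0 := hs_big (contr G u v) (Fintype.card V) (by omega)
    have hrec := hs_del G u v huv
    constructor
    · intro i hi
      have h1 := ih1 i hi
      obtain ⟨c, hc⟩ : ∃ c, Fintype.card V + 1 - i = c + 1 := ⟨Fintype.card V - i, by omega⟩
      rw [hrec, hc, S_sub, S_sub, S_sub, hK0]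
      rw [hc] at h1
      have h2 := hK c
      have h3 := hK i
      linarith
    · intro i hi
      have h1 := ih2 i hi
      obtain ⟨c, hc⟩ : ∃ c, Fintype.card V - i = c + 1 := ⟨Fintype.card V - i - 1, by omega⟩
      rw [hrec, hc, S_sub, S_sub, S_sub, hK0]
      rw [hc] at h1
      have h2 := hK c
      have h3 := hK i
      linarith

end Pool.Agent.V11141.Chrom
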