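import Mathlib

/-!
# DP-colouring: covers, the DP-chromatic number and the partial DP `t`-number
-/

namespace Pool.Agent.V11141.DP

/-- `(L, H)` is a cover of `G`: the sets `L u` partition the vertex set of `H`, each `L u` is a
clique of `H`, for each edge `uv` of `G` the edges of `H` between `L u` and `L v` form a
matching, and for distinct nonadjacent `u`, `v` there is no edge of `H` between `L u` and
`L v`. -/
structure IsCover {V W : Type} (G : SimpleGraph V) (H : SimpleGraph W) (L : V → Set W) :
    Prop where
  part : ∀ w : W, ∃! u : V, w ∈ L u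
  clique : ∀ u : V, H.IsClique (L u)
  matching : ∀ u v : V, G.Adj u v → ∀ x ∈ L u, ∀ y ∈ L v, ∀ y' ∈ L v,
    H.Adj x y → H.Adj x y' → y = y'
  nonadj : ∀ u v : V, u ≠ v → ¬ G.Adj u v → ∀ x ∈ L u, ∀ y ∈ L v, ¬ H.Adj x y

/-- The cover is `m`-fold: every `L u` has exactly `m` elements. -/
def IsFold {V W : Type} (m : ℕ) (L : V → Set W) : Prop := ∀ u : V, (L u).ncard = m

/-- The DP-chromatic number of `G`: the least `m` such that for every `m`-fold cover `(L, H)` of
`G` the graph `H` has an independent set of size `|V(G)|`. -/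
noncomputable def chiDP {V : Type} (G : SimpleGraph V) : ℕ :=
  sInf {m : ℕ | ∀ (W : Type) (_ : Finite W) (H : SimpleGraph W) (L : V → Set W),
    IsCover G H L → IsFold m L → ∃ I : Finset W, H.IsIndepSet (I : Set W) ∧ I.card = Nat.card V}

/-- The partial DP `t`-number of `G`: the minimum of the independence number of `H` over all
`t`-fold covers `(L, H)` of `G`. -/
noncomputable def alphaDP {V : Type} (t : ℕ) (G : SimpleGraph V) : ℕ :=
  sInf {a : ℕ | ∃ (W : Type) (_ : Finite W) (H : SimpleGraph W) (L : V → Set W),
    IsCover G H L ∧ IsFold t L ∧ a = H.indepNum}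

end Pool.Agent.V11141.DP
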