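import Mathlib
import Pool.Agent.V11141.DPDef

namespace Pool.Agent.V11141.DP

/-- a choice function without conflicts gives an independent set -/
theorem indep_of_fun {V W : Type} [Finite V] {G : SimpleGraph V} {H : SimpleGraph W}
    {L : V → Set W} (hc : IsCover G H L) (c : V → W) (h1 : ∀ v, c v ∈ L v)
    (h2 : ∀ u v, G.Adj u v → ¬ H.Adj (c u) (c v)) :
    ∃ I : Finset W, H.IsIndepSet (I : Set W) ∧ I.card = Nat.card V := by
  classical
  have := Fintype.ofFinite V
  refine ⟨Finset.univ.image c, ?_, ?_⟩
  · intro x hx y hy _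
    simp only [Finset.coe_image, Finset.coe_univ, Set.image_univ, Set.mem_range] at hx hy
    obtain ⟨u, rfl⟩ := hx
    obtain ⟨v, rfl⟩ := hy
    by_cases huv : u = v
    · subst huv; exact fun h => h.ne rfl
    · by_cases hadj : G.Adj u v
      · exact h2 u v hadj
      · exact hc.nonadj u v huv hadj _ (h1 u) _ (h1 v)
  · rw [Finset.card_image_of_injective, Finset.card_univ, Nat.card_eq_fintype_card]
    intro u v huv
    obtain ⟨w, -, hw⟩ := hc.part (c u)
    have e1 := hw u (h1 u)
    have e2 := hw v (by show c u ∈ L v; rw [huv]; exact h1 v)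
    rw [e1, e2]

/-- greedy colouring -/
theorem greedy {V W : Type} [Finite V] [Finite W] {G : SimpleGraph V} {H : SimpleGraph W}
    {L : V → Set W} (hc : IsCover G H L) {m : ℕ} (hm : IsFold m L)
    (r : V → ℕ) (P : V → Finset V) (hP : ∀ u v, G.Adj u v → r u < r v → u ∈ P v)
    (hr : ∀ u v, r u = r v → u = v) (hcard : ∀ v, (P v).card < m) :
    ∃ I : Finset W, H.IsIndepSet (I : Set W) ∧ I.card = Nat.card V := by
  classical
  have := Fintype.ofFinite V
  have := Fintype.ofFinite W
  have key : ∀ n : ℕ, ∃ c : V → W, (∀ v, c v ∈ L v) ∧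
      ∀ u v, r u < n → r v < n → G.Adj u v → ¬ H.Adj (c u) (c v) := by
    intro n
    induction n with
    | zero =>
      have hne : ∀ v, (L v).Nonempty := by
        intro v
        have h1 := hcard v
        rw [← hm v] at h1
        exact Set.nonempty_of_ncard_ne_zero (by omega)
      choose c hc' using hne
      exact ⟨c, hc', fun u v h => absurd h (Nat.not_lt_zero _)⟩
    | succ n ih =>
      obtain ⟨c, h1, h2⟩ := ih
      by_cases hv : ∃ v, r v = n
      · obtain ⟨v, hv⟩ := hv
        -- forbidden set
        let F : Set W := {y | y ∈ L v ∧ ∃ u ∈ P v, G.Adj u v ∧ H.Adj (c u) y}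
        have hF : F.ncard < (L v).ncard := by
          rw [hm v]
          refine lt_of_le_of_lt ?_ (hcard v)
          have hsub : F ⊆ ((P v).image (fun u =>
              if h : ∃ y, y ∈ L v ∧ G.Adj u v ∧ H.Adj (c u) y then h.choose else c u) : Finset W) := by
            rintro y ⟨hy1, u, hu, hadj, hy2⟩
            have hex : ∃ y, y ∈ L v ∧ G.Adj u v ∧ H.Adj (c u) y := ⟨y, hy1, hadj, hy2⟩
            rw [Finset.mem_coe, Finset.mem_image]
            refine ⟨u, hu, ?_⟩
            rw [dif_pos hex]
            have hsp := hex.choose_spec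
            exact hc.matching u v hadj (c u) (h1 u) _ hsp.1 _ hy1 hsp.2.2 hy2
          calc F.ncard ≤ _ := Set.ncard_le_ncard hsub (Finset.finite_toSet _)
            _ = _ := Set.ncard_coe_finset _
            _ ≤ _ := Finset.card_image_le
        obtain ⟨y, hy1, hy2⟩ := Set.exists_mem_notMem_of_ncard_lt_ncard hF
        refine ⟨Function.update c v y, ?_, ?_⟩
        · intro w
          by_cases hw : w = v
          · subst hw; rw [Function.update_self]; exact hy1
          · rw [Function.update_of_ne hw]; exact h1 w
        · intro a b ha hb hab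
          have hcase : ∀ a, a ≠ v → r a < n + 1 → r a < n := by
            intro a hav ha
            rcases Nat.lt_succ_iff_lt_or_eq.mp ha with h | h
            · exact h
            · exact absurd (hr a v (h.trans hv.symm)) hav
          have hnew : ∀ a, r a < n + 1 → G.Adj a v → ¬ H.Adj (c a) y := by
            intro a ha hav hay
            apply hy2
            refine ⟨hy1, a, hP a v hav ?_, hav, hay⟩
            rw [hv]
            exact hcase a hav.ne ha
          by_cases hav : a = v
          · subst hav
            have hbv : b ≠ a := hab.ne.symm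
            rw [Function.update_self, Function.update_of_ne hbv]
            exact fun h => hnew b hb hab.symm h.symm
          · rw [Function.update_of_ne hav]
            by_cases hbv : b = v
            · subst hbv
              rw [Function.update_self]
              exact hnew a ha hab
            · rw [Function.update_of_ne hbv]
              exact h2 a b (hcase a hav ha) (hcase b hbv hb) hab
      · push Not at hv
        refine ⟨c, h1, fun u v hu hv' hadj => h2 u v ?_ ?_ hadj⟩
        · rcases Nat.lt_succ_iff_lt_or_eq.mp hu with h | h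
          · exact h
          · exact absurd h (hv u)
        · rcases Nat.lt_succ_iff_lt_or_eq.mp hv' with h | h
          · exact h
          · exact absurd h (hv v)
  obtain ⟨c, h1, h2⟩ := key ((Finset.univ.sup r) + 1)
  refine indep_of_fun hc c h1 fun u v hadj => h2 u v ?_ ?_ hadj
  · exact Nat.lt_succ_of_le (Finset.le_sup (Finset.mem_univ u))
  · exact Nat.lt_succ_of_le (Finset.le_sup (Finset.mem_univ v))

/-- the cover given by permutations on the edges -/
def permH {V : Type} (G : SimpleGraph V) {K : Type} (s : V → V → Equiv.Perm K)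
    (hs : ∀ u v, s v u = (s u v)⁻¹) : SimpleGraph (V × K) where
  Adj x y := (x.1 = y.1 ∧ x.2 ≠ y.2) ∨ (G.Adj x.1 y.1 ∧ y.2 = s x.1 y.1 x.2)
  symm := ⟨fun x y h => by
    rcases h with ⟨h1, h2⟩ | ⟨h1, h2⟩
    · exact Or.inl ⟨h1.symm, h2.symm⟩
    · refine Or.inr ⟨h1.symm, ?_⟩
      rw [hs x.1 y.1, h2]
      simp⟩
  loopless := ⟨fun x h => by
    rcases h with ⟨_, h2⟩ | ⟨h1, _⟩
    · exact h2 rfl
    · exact h1.ne rfl⟩

/-- lists of the permutation cover -/
def permL (V K : Type) (u : V) : Set (V × K) := {x | x.1 = u}

theorem perm_cover {V : Type} (G : SimpleGraph V) {K : Type} (s : V → V → Equiv.Perm K)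
    (hs : ∀ u v, s v u = (s u v)⁻¹) : IsCover G (permH G s hs) (permL V K) where
  part := fun w => ⟨w.1, rfl, fun _ h => h.symm⟩
  clique := by
    intro u x hx y hy hxy
    have h1 : x.1 = u := hx
    have h2 : y.1 = u := hy
    left
    refine ⟨h1.trans h2.symm, fun h => hxy (Prod.ext (h1.trans h2.symm) h)⟩
  matching := by
    intro u v huv x hx y hy y' hy' h h'
    have h1 : x.1 = u := hx
    have h2 : y.1 = v := hy
    have h3 : y'.1 = v := hy'
    have hne : u ≠ v := huv.ne
    rcases h with ⟨h4, _⟩ | ⟨_, h4⟩
    · exact absurd (h1.symm.trans (h4.trans h2)) hne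
    · rcases h' with ⟨h5, _⟩ | ⟨_, h5⟩
      · exact absurd (h1.symm.trans (h5.trans h3)) hne
      · refine Prod.ext (h2.trans h3.symm) ?_
        rw [h4, h5, h2, h3]
  nonadj := by
    intro u v hne hnadj x hx y hy h
    have h1 : x.1 = u := hx
    have h2 : y.1 = v := hy
    rcases h with ⟨h4, _⟩ | ⟨h4, _⟩
    · exact hne (h1.symm.trans (h4.trans h2))
    · rw [h1, h2] at h4
      exact hnadj h4

theorem perm_fold (V : Type) (m : ℕ) : IsFold m (permL V (Fin m)) := by
  intro u
  have : permL V (Fin m) u = (fun i : Fin m => (u, i)) '' Set.univ := by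
    ext ⟨a, i⟩
    constructor
    · intro h
      have : a = u := h
      subst this
      exact ⟨i, trivial, rfl⟩
    · rintro ⟨j, -, hj⟩
      exact (congrArg Prod.fst hj).symm
  rw [this, Set.ncard_image_of_injective _ (fun i j h => (Prod.mk.inj h).2), Set.ncard_univ,
    Nat.card_eq_fintype_card, Fintype.card_fin]

/-- an independent set of the permutation cover gives a partial colouring: there are a set `S`
of vertices of the same size and a function without conflicts on `S` -/
theorem perm_indep {V : Type} [Finite V] (G : SimpleGraph V) {m : ℕ}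
    (s : V → V → Equiv.Perm (Fin (m + 1))) (hs : ∀ u v, s v u = (s u v)⁻¹)
    (I : Finset (V × Fin (m + 1))) (hI : (permH G s hs).IsIndepSet (I : Set (V × Fin (m + 1)))) :
    ∃ (S : Finset V) (c : V → Fin (m + 1)), S.card = I.card ∧
      ∀ u ∈ S, ∀ v ∈ S, G.Adj u v → c v ≠ s u v (c u) := by
  classical
  have hinj : Set.InjOn Prod.fst (I : Set (V × Fin (m + 1))) := by
    intro x hx y hy hxy
    by_contra hne
    refine hI hx hy hne (Or.inl ⟨hxy, fun h => hne (Prod.ext hxy h)⟩)
  refine ⟨I.image Prod.fst, fun v => if h : ∃ i, (v, i) ∈ I then h.choose else 0,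
    Finset.card_image_of_injOn hinj, ?_⟩
  intro u hu v hv huv
  have hu' : ∃ i, (u, i) ∈ I := by
    rw [Finset.mem_image] at hu
    obtain ⟨⟨a, i⟩, h1, rfl⟩ := hu
    exact ⟨i, h1⟩
  have hv' : ∃ i, (v, i) ∈ I := by
    rw [Finset.mem_image] at hv
    obtain ⟨⟨a, i⟩, h1, rfl⟩ := hv
    exact ⟨i, h1⟩
  beta_reduce
  rw [dif_pos hu', dif_pos hv']
  intro h
  refine hI hu'.choose_spec hv'.choose_spec ?_ (Or.inr ⟨huv, h⟩)
  intro h'
  exact huv.ne (congrArg Prod.fst h')

/-- a clique of size `k` forces the DP-chromatic number to be at least `k` -/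
theorem not_small {V : Type} [Finite V] (G : SimpleGraph V) (k : ℕ) (f : Fin k → V)
    (hf : ∀ i j, i ≠ j → G.Adj (f i) (f j)) (m : ℕ) (hm : m < k) :
    ¬ ∀ (W : Type) (_ : Finite W) (H : SimpleGraph W) (L : V → Set W),
      IsCover G H L → IsFold m L →
        ∃ I : Finset W, H.IsIndepSet (I : Set W) ∧ I.card = Nat.card V := by
  classical
  intro hcon
  have := Fintype.ofFinite V
  obtain ⟨I, hI, hcard⟩ := hcon (V × Fin m) inferInstance
    (permH G (fun _ _ => 1) (fun _ _ => by simp)) (permL V (Fin m))
    (perm_cover G _ _) (perm_fold V m)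
  rcases m with _ | m
  · have h0 : I = ∅ := by
      rw [Finset.eq_empty_iff_forall_notMem]
      rintro ⟨v, i⟩ -
      exact i.elim0
    rw [h0, Finset.card_empty, Nat.card_eq_fintype_card] at hcard
    have hV : 0 < Fintype.card V := Fintype.card_pos_iff.mpr ⟨f ⟨0, hm⟩⟩
    omega
  · obtain ⟨S, c, hS, hc⟩ := perm_indep G (fun _ _ => 1) (fun _ _ => by simp) I hI
    have hSu : S = Finset.univ := by
      rw [← Finset.card_eq_iff_eq_univ, hS, hcard, Nat.card_eq_fintype_card]
    have hinj : Function.Injective fun i => c (f i) := by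
      intro i j hij
      by_contra hne
      have := hc (f i) (by rw [hSu]; simp) (f j) (by rw [hSu]; simp) (hf i j hne)
      exact this (by simpa using hij.symm)
    have := Fintype.card_le_of_injective _ hinj
    rw [Fintype.card_fin, Fintype.card_fin] at this
    omega

/-- a matching relation extends to a permutation -/
theorem extend_perm {m : ℕ} (R : Fin m → Fin m → Prop) (h1 : ∀ i j j', R i j → R i j' → j = j')
    (h2 : ∀ i i' j, R i j → R i' j → i = i') :
    ∃ σ : Equiv.Perm (Fin m), ∀ i j, R i j → σ i = j := by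
  classical
  let p : Fin m → Prop := fun i => ∃ j, R i j
  let q : Fin m → Prop := fun j => ∃ i, R i j
  let f : {i // p i} → {j // q j} := fun x => ⟨x.2.choose, x.1, x.2.choose_spec⟩
  have hf : Function.Bijective f := by
    constructor
    · intro x y hxy
      have h3 : x.2.choose = y.2.choose := congrArg Subtype.val hxy
      have h4 := x.2.choose_spec
      have h5 := y.2.choose_spec
      rw [h3] at h4
      exact Subtype.ext (h2 _ _ _ h4 h5)
    · rintro ⟨j, i, hij⟩
      have hi : p i := ⟨j, hij⟩
      exact ⟨⟨i, hi⟩, Subtype.ext (h1 _ _ _ hi.choose_spec hij)⟩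
  refine ⟨(Equiv.ofBijective f hf).extendSubtype, fun i j hij => ?_⟩
  have hi : p i := ⟨j, hij⟩
  rw [Equiv.extendSubtype_apply_of_mem _ i hi]
  exact h1 _ _ _ hi.choose_spec hij

/-- every `m`-fold cover is, after adding edges, a permutation cover: colourings of the
permutation cover give colourings of the cover -/
theorem colour_of_perm {V W : Type} [Finite V] [Finite W] [LinearOrder V] {G : SimpleGraph V}
    {H : SimpleGraph W} {L : V → Set W} (hc : IsCover G H L) {m : ℕ}
    (hm : IsFold m L)
    (hcol : ∀ s : V → V → Equiv.Perm (Fin m), (∀ u v, s v u = (s u v)⁻¹) →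
      ∃ c : V → Fin m, ∀ u v, G.Adj u v → c v ≠ s u v (c u)) :
    ∃ I : Finset W, H.IsIndepSet (I : Set W) ∧ I.card = Nat.card V := by
  classical
  have hequiv : ∀ u, Nonempty (Fin m ≃ L u) := by
    intro u
    have h1 : Nat.card (L u) = m := by
      rw [Nat.card_coe_set_eq]; exact hm u
    have : Finite (L u) := inferInstance
    exact ⟨(Finite.equivFinOfCardEq h1).symm⟩
  let e : ∀ u, Fin m ≃ L u := fun u => (hequiv u).some
  have hext : ∀ u v, G.Adj u v → ∃ σ : Equiv.Perm (Fin m), ∀ i j,
      H.Adj (e u i) (e v j) → σ i = j := by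
    intro u v huv
    refine extend_perm (fun i j => H.Adj (e u i) (e v j)) ?_ ?_
    · intro i j j' h h'
      have := hc.matching u v huv _ (e u i).2 _ (e v j).2 _ (e v j').2 h h'
      exact (e v).injective (Subtype.ext this)
    · intro i i' j h h'
      have := hc.matching v u huv.symm _ (e v j).2 _ (e u i).2 _ (e u i').2 h.symm h'.symm
      exact (e u).injective (Subtype.ext this)
  let τ : V → V → Equiv.Perm (Fin m) := fun u v =>
    if h : G.Adj u v then (hext u v h).choose else 1
  have hτ : ∀ u v, G.Adj u v → ∀ i j, H.Adj (e u i) (e v j) → τ u v i = j := by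
    intro u v huv
    have h1 : τ u v = (hext u v huv).choose := dif_pos huv
    rw [h1]
    exact (hext u v huv).choose_spec
  let s : V → V → Equiv.Perm (Fin m) := fun u v =>
    if u < v then τ u v else if v < u then (τ v u)⁻¹ else 1
  have hs : ∀ u v, s v u = (s u v)⁻¹ := by
    intro u v
    rcases lt_trichotomy u v with h | h | h
    · simp only [s, if_pos h, if_neg (not_lt.mpr h.le)]
    · subst h
      simp [s]
    · simp only [s, if_pos h, if_neg (not_lt.mpr h.le), inv_inv]
  obtain ⟨c, hcc⟩ := hcol s hs
  refine indep_of_fun hc (fun u => (e u (c u) : W)) (fun u => (e u (c u)).2) ?_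
  intro u v huv hadj
  apply hcc u v huv
  rcases lt_trichotomy u v with h | h | h
  · simp only [s, if_pos h]
    exact (hτ u v huv _ _ hadj).symm
  · exact absurd h huv.ne
  · simp only [s, if_pos h, if_neg (not_lt.mpr h.le)]
    have := hτ v u huv.symm _ _ hadj.symm
    rw [← this]
    simp

end Pool.Agent.V11141.DP
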